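import Pool.Agent.N218.P15.Abs
import Pool.Agent.N969.P15.Defs2

/-!
# Sums of local densities over families of factorizations, general form
-/

set_option autoImplicit false

namespace Pool.Agent.N218.P17

open Finset
open Pool.Agent.N969.P15 (tw)
open Pool.Agent.Z700 (hh fac)
open Pool.Agent.N218.P15 (Sgn GS FF abs1 x4 x4_sgn x4_mul x8 x8_sgn x8_mul pr jac_pr jac_sgn ee)

/-- odd primes -/
def OP (P : Finset ℕ) : Prop := ∀ p ∈ P, p.Prime ∧ p ≠ 2

theorem OP.sub {P S : Finset ℕ} (h : OP P) (hS : S ⊆ P) : OP S := fun p hp => h p (hS hp)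

theorem OP.odd {P : Finset ℕ} (h : OP P) {p : ℕ} (hp : p ∈ P) : p % 2 = 1 := by
  rcases (h p hp).1.eq_two_or_odd with h1 | h1
  · exact absurd h1 (h p hp).2
  · exact h1

theorem pr_facts {S : Finset ℕ} (h : OP S) : pr S % 2 = 1 ∧
    ∏ p ∈ S, x4 p = x4 (pr S) ∧ ∏ p ∈ S, x8 p = x8 (pr S) := by
  classical
  unfold pr
  induction S using Finset.induction_on with
  | empty => simp [x4, x8]
  | insert a s ha ih =>
    obtain ⟨i1, i2, i3⟩ := ih (h.sub (Finset.subset_insert _ _))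
    have ho := h.odd (mem_insert_self a s)
    simp only [Finset.prod_insert ha]
    rw [x4_mul ho i1, x8_mul ho i1, i2, i3]
    refine ⟨?_, rfl, rfl⟩
    rw [Nat.mul_mod, ho, i1]

theorem pr_pos {S : Finset ℕ} (h : OP S) : 0 < pr S := by
  have := (pr_facts h).1
  omega

theorem pr_nd {S : Finset ℕ} (h : OP S) {l : ℕ} (hl : l.Prime) (hS : l ∉ S) : ¬ l ∣ pr S := by
  intro h1
  obtain ⟨p, hp, h1⟩ := (Prime.dvd_finsetProd_iff hl.prime _).1 h1
  have := (Nat.prime_dvd_prime_iff_eq hl (h p hp).1).1 h1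
  exact hS (this ▸ hp)

theorem ee_sgn {P : Finset ℕ} (hP : OP P) {D l p : ℕ} (hl : l.Prime) (hD : D ≠ 0) (hlD : l ∣ D)
    (hv : l ∈ P → D.factorization l = 1) (hp : p ∈ P) : Sgn (ee D l p) := by
  unfold ee
  split_ifs with h
  · subst h
    apply jac_sgn hl
    intro h1
    have h2 : p ∣ D / p := by exact_mod_cast h1
    have h3 : p ^ 2 ∣ D := by
      rw [pow_two]
      exact Nat.mul_dvd_of_dvd_div hlD h2
    have := (Nat.Prime.pow_dvd_iff_le_factorization hl hD).1 h3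
    rw [hv hp] at this
    omega
  · apply jac_sgn hl
    intro h1
    have h2 : l ∣ p := by exact_mod_cast h1
    exact h ((Nat.prime_dvd_prime_iff_eq hl (hP p hp).1).1 h2).symm

theorem fac_prod {P S : Finset ℕ} (hP : OP P) (hS : S ⊆ P) {t D l : ℕ} (ht : ¬ l ∣ t)
    (hl : l.Prime) (hv : l ∈ P → D.factorization l = 1) :
    fac (t * pr S) D l = ∑ j ∈ range (D.factorization l + 1),
      (jacobiSym (-(t : ℤ)) l * ∏ p ∈ S, ee D l p) ^ j := by
  classical
  by_cases hlS : l ∈ S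
  · have hdvd : l ∣ t * pr S := Dvd.dvd.mul_left (Finset.dvd_prod_of_mem _ hlS) _
    have hv1 := hv (hS hlS)
    unfold fac hh
    rw [if_pos hdvd, if_neg (by rw [hv1]; decide), hv1, pow_one]
    have h1 : t * pr S / l = t * pr (S.erase l) := by
      unfold pr
      rw [← Finset.mul_prod_erase S _ hlS]
      rw [show t * (l * ∏ p ∈ S.erase l, p) = l * (t * ∏ p ∈ S.erase l, p) by ring]
      exact Nat.mul_div_cancel_left _ hl.pos
    rw [h1]
    have h2 : ∏ p ∈ S, ee D l p = jacobiSym ((D / l : ℕ) : ℤ) l *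
        ∏ p ∈ S.erase l, jacobiSym (p : ℤ) l := by
      rw [← Finset.mul_prod_erase S _ hlS]
      congr 1
      · unfold ee; rw [if_pos rfl]
      · refine Finset.prod_congr rfl fun p hp => ?_
        unfold ee; rw [if_neg (Finset.ne_of_mem_erase hp)]
    rw [h2, Finset.sum_range_succ, Finset.sum_range_one, pow_zero, pow_one]
    congr 1
    rw [show (-((t * pr (S.erase l) * (D / l) : ℕ) : ℤ)) =
      -(t : ℤ) * ((pr (S.erase l) : ℕ) : ℤ) * ((D / l : ℕ) : ℤ) by push_cast; ring,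
      jacobiSym.mul_left, jacobiSym.mul_left, jac_pr]
    ring
  · have hnd : ¬ l ∣ t * pr S := by
      intro h
      rcases (Nat.Prime.dvd_mul hl).1 h with h | h
      · exact ht h
      · exact pr_nd (hP.sub hS) hl hlS h
    unfold fac
    rw [if_neg hnd]
    have h2 : ∏ p ∈ S, ee D l p = ∏ p ∈ S, jacobiSym (p : ℤ) l := by
      refine Finset.prod_congr rfl fun p hp => ?_
      unfold ee; rw [if_neg (by rintro rfl; exact hlS hp)]
    rw [h2, ← jac_pr, ← jacobiSym.mul_left]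
    push_cast
    refine Finset.sum_congr rfl fun j _ => ?_
    congr 2
    ring

/-- exponents: at `2` shifted by two -/
def VV (D l : ℕ) : ℕ := if l = 2 then D.factorization 2 - 2 else D.factorization l

/-- the local signs -/
def e2 (D l p : ℕ) : ℤ := if l = 2 then x8 p else ee D l p

/-- the initial signs -/
def su (t : ℕ) (l : ℕ) : ℤ := if l = 2 then x8 t else jacobiSym (-(t : ℤ)) l

/-- the primes outside `Z` and the prime `2` -/
def LZ (Z : Finset ℕ) (D : ℕ) : Finset ℕ := insert 2 (D.primeFactors \ Z)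

/-- the local densities away from `Z` -/
def WZ (Z : Finset ℕ) (n1 D : ℕ) : ℤ := tw n1 D * ∏ l ∈ D.primeFactors \ Z, fac n1 D l

theorem tw_small (n1 : ℕ) {D : ℕ} (h : D.factorization 2 < 2) : tw n1 D = 0 := by
  unfold tw
  rw [show D.factorization 2 - 1 = 0 by omega, Finset.sum_range_zero]

theorem WZ_small (Z : Finset ℕ) (n1 : ℕ) {D : ℕ} (h : D.factorization 2 < 2) : WZ Z n1 D = 0 := by
  unfold WZ
  rw [tw_small n1 h, zero_mul]

theorem mem_Z {Z : Finset ℕ} (h2Z : 2 ∈ Z) {D l : ℕ} (h : l ∈ D.primeFactors \ Z) :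
    l.Prime ∧ l ∣ D ∧ l ≠ 2 ∧ l ∉ Z ∧ D ≠ 0 := by
  rw [Finset.mem_sdiff, Nat.mem_primeFactors] at h
  exact ⟨h.1.1, h.1.2.1, fun h' => h.2 (h' ▸ h2Z), h.2, h.1.2.2⟩

/-- the hypotheses on a family -/
structure Hy (P Z : Finset ℕ) (t D : ℕ) : Prop where
  hP : OP P
  h2Z : 2 ∈ Z
  ht2 : t % 2 = 1
  htZ : ∀ l : ℕ, l.Prime → l ∣ t → l ∈ Z
  hv : ∀ l ∈ P, l ∣ D → l ∉ Z → D.factorization l = 1
  hD : D ≠ 0

theorem x8_val {n : ℕ} (h : n % 4 = 3) : (if n % 8 = 7 then (1 : ℤ) else -1) = x8 n := by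
  unfold x8
  have : n % 8 = 3 ∨ n % 8 = 7 := by omega
  rcases this with h | h <;> rw [h] <;> norm_num

theorem WZ_eq {P Z S : Finset ℕ} {t D : ℕ} (h : Hy P Z t D) (hS : S ⊆ P)
    (hc : (t * pr S) % 4 = 3) (h2 : 2 ≤ D.factorization 2) :
    WZ Z (t * pr S) D = FF (LZ Z D) (VV D) (su t) (e2 D) S := by
  unfold WZ FF LZ
  have h2n : 2 ∉ D.primeFactors \ Z := fun h' => (mem_Z h.h2Z h').2.2.1 rfl
  rw [Finset.prod_insert h2n]
  have hf := pr_facts (h.hP.sub hS)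
  congr 1
  · unfold tw VV su e2
    simp only [if_true]
    rw [hf.2.2, show D.factorization 2 - 1 = D.factorization 2 - 2 + 1 by omega,
      ← x8_mul h.ht2 hf.1]
    refine Finset.sum_congr rfl fun j _ => ?_
    rw [x8_val hc]
  · refine Finset.prod_congr rfl fun l hl => ?_
    obtain ⟨a1, a2, a3, a4, a5⟩ := mem_Z h.h2Z hl
    rw [fac_prod h.hP hS (fun h' => a4 (h.htZ l a1 h')) a1 (fun h' => h.hv l h' a2 a4)]
    unfold VV su e2
    simp only [if_neg a3]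

theorem su_sgn {P Z : Finset ℕ} {t D : ℕ} (h : Hy P Z t D) {l : ℕ} (hl : l ∈ LZ Z D) :
    Sgn (su t l) := by
  unfold su
  by_cases h2 : l = 2
  · rw [if_pos h2]; exact x8_sgn t
  · rw [if_neg h2]
    have hl' : l ∈ D.primeFactors \ Z := by
      unfold LZ at hl
      rw [Finset.mem_insert] at hl
      exact hl.resolve_left h2
    obtain ⟨a1, a2, a3, a4, a5⟩ := mem_Z h.h2Z hl'
    apply jac_sgn a1
    intro h'
    rw [dvd_neg] at h'
    exact a4 (h.htZ l a1 (by exact_mod_cast h'))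

theorem e2_sgn {P Z : Finset ℕ} {t D : ℕ} (h : Hy P Z t D) {l p : ℕ} (hl : l ∈ LZ Z D)
    (hp : p ∈ P) : Sgn (e2 D l p) := by
  unfold e2
  by_cases h2 : l = 2
  · rw [if_pos h2]; exact x8_sgn p
  · rw [if_neg h2]
    have hl' : l ∈ D.primeFactors \ Z := by
      unfold LZ at hl
      rw [Finset.mem_insert] at hl
      exact hl.resolve_left h2
    obtain ⟨a1, a2, a3, a4, a5⟩ := mem_Z h.h2Z hl'
    exact ee_sgn h.hP a1 h.hD a2 (fun h' => h.hv l h' a2 a4) hp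

/-- the reference value -/
def YY (P Z : Finset ℕ) (D : ℕ) (ψ : ℕ → ℤ) : ℤ :=
  if 2 ≤ D.factorization 2 then GS P (LZ Z D) (VV D) (fun _ => 1) (e2 D) ψ else 0

theorem YY_dvd {P Z : Finset ℕ} {t D : ℕ} (h : Hy P Z t D) {ψ : ℕ → ℤ}
    (hψ : ∀ p ∈ P, Sgn (ψ p)) : (2 : ℤ) ^ P.card ∣ YY P Z D ψ := by
  unfold YY
  split_ifs
  · exact (abs1 P (VV D) (fun _ => 1) (fun _ => 1) (e2 D) (LZ Z D) (fun l _ => Or.inl rfl)
      (fun l _ => Or.inl rfl) (fun l hl p hp => e2_sgn h hl hp) ψ hψ).1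
  · exact dvd_zero _

/-- the residue of the variable factor -/
def rt (t : ℕ) : ℕ := if t % 4 = 1 then 3 else 1

/-- the sign of the family -/
def et (t : ℕ) : ℤ := if t % 4 = 1 then -1 else 1

theorem et_sgn (t : ℕ) : Sgn (et t) := by
  unfold et; split_ifs <;> simp [Sgn]

theorem rt_mul {t p : ℕ} (ht : t % 2 = 1) (hp : p % 4 = rt t) : (t * p) % 4 = 3 := by
  unfold rt at hp
  rw [Nat.mul_mod]
  have h1 : t % 4 = 1 ∨ t % 4 = 3 := by omega
  rcases h1 with h1 | h1 <;> rw [h1] at hp ⊢ <;> norm_num at hp <;> rw [hp]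

/-- the sum over the residue class of the family -/
theorem sumT {P : Finset ℕ} (hP : OP P) (t : ℕ) (f : Finset ℕ → ℤ) :
    2 * ∑ S ∈ P.powerset.filter (fun S => pr S % 4 = rt t), f S =
      ∑ S ∈ P.powerset, (1 + et t * ∏ p ∈ S, x4 p) * f S := by
  rw [Finset.sum_filter, Finset.mul_sum]
  refine Finset.sum_congr rfl fun S hS => ?_
  have hf := pr_facts (hP.sub (Finset.mem_powerset.1 hS))
  rw [hf.2.1]
  unfold x4 rt et
  have := hf.1
  split_ifs <;> first | (exfalso; omega) | ring1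

theorem parity {X Y c : ℤ} {k : ℕ} (h1 : (2 : ℤ) ^ k ∣ X) (h2 : (2 : ℤ) ^ (k + 1) ∣ X - Y)
    (hc : Sgn c) : (2 : ℤ) ^ (k + 1) ∣ c * X - Y := by
  rcases hc with rfl | rfl
  · rwa [one_mul]
  · have e : -1 * X - Y = (X - Y) - 2 * X := by ring
    rw [e]
    refine dvd_sub h2 ?_
    rw [pow_succ, mul_comm ((2 : ℤ) ^ k) 2]
    exact mul_dvd_mul_left 2 h1

/-- the sum over a family, with a character -/
def FS (P Z : Finset ℕ) (t D : ℕ) (ψ : ℕ → ℤ) : ℤ :=
  ∑ S ∈ P.powerset.filter (fun S => pr S % 4 = rt t), (∏ p ∈ S, ψ p) * WZ Z (t * pr S) D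

/-- all the families agree modulo `2 ^ (k + 1)` -/
theorem fam {P Z : Finset ℕ} {t D : ℕ} (h : Hy P Z t D) {ψ : ℕ → ℤ} (hψ : ∀ p ∈ P, Sgn (ψ p)) :
    (2 : ℤ) ^ (P.card + 1) ∣ 2 * FS P Z t D ψ - (YY P Z D ψ + YY P Z D (fun p => ψ p * x4 p)) := by
  unfold FS YY
  by_cases h2 : 2 ≤ D.factorization 2
  swap
  · rw [Finset.sum_eq_zero fun S _ => by rw [WZ_small Z _ (by omega), mul_zero], if_neg h2,
      if_neg h2]
    simp
  rw [if_pos h2, if_pos h2]
  have e1 : 2 * ∑ S ∈ P.powerset.filter (fun S => pr S % 4 = rt t),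
      (∏ p ∈ S, ψ p) * WZ Z (t * pr S) D =
      GS P (LZ Z D) (VV D) (su t) (e2 D) ψ +
        et t * GS P (LZ Z D) (VV D) (su t) (e2 D) (fun p => ψ p * x4 p) := by
    rw [Finset.sum_congr rfl (g := fun S => (∏ p ∈ S, ψ p) *
      FF (LZ Z D) (VV D) (su t) (e2 D) S), sumT h.hP]
    · unfold GS
      rw [Finset.mul_sum, ← Finset.sum_add_distrib]
      refine Finset.sum_congr rfl fun S _ => ?_
      rw [Finset.prod_mul_distrib]
      ring
    · intro S hS
      obtain ⟨a1, a2⟩ := Finset.mem_filter.1 hS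
      rw [WZ_eq h (Finset.mem_powerset.1 a1) (rt_mul h.ht2 a2) h2]
  rw [e1]
  have hs1 : ∀ l ∈ LZ Z D, Sgn ((fun _ => 1 : ℕ → ℤ) l) := fun l _ => Or.inl rfl
  have key := abs1 P (VV D) (su t) (fun _ => 1) (e2 D) (LZ Z D) (fun l hl => su_sgn h hl) hs1
    (fun l hl p hp => e2_sgn h hl hp)
  have A1 := key ψ hψ
  have A2 := key (fun p => ψ p * x4 p) (fun p hp => (hψ p hp).mul (x4_sgn p))
  have e : ∀ a b c d : ℤ, a + b - (c + d) = (a - c) + (b - d) := fun a b c d => by ring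
  rw [e]
  exact dvd_add A1.2 (parity A2.1 A2.2 (et_sgn t))

/-- twice a family -/
theorem fam2 {P Z : Finset ℕ} {t D : ℕ} (h : Hy P Z t D) {ψ : ℕ → ℤ} (hψ : ∀ p ∈ P, Sgn (ψ p)) :
    (2 : ℤ) ^ P.card ∣ 2 * FS P Z t D ψ := by
  have h1 := fam h hψ
  have h2 := YY_dvd h hψ
  have h3 := YY_dvd h (ψ := fun p => ψ p * x4 p) (fun p hp => (hψ p hp).mul (x4_sgn p))
  have e : 2 * FS P Z t D ψ = (2 * FS P Z t D ψ - (YY P Z D ψ + YY P Z D (fun p => ψ p * x4 p))) +
      (YY P Z D ψ + YY P Z D (fun p => ψ p * x4 p)) := by ring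
  rw [e]
  exact dvd_add ((pow_dvd_pow 2 (Nat.le_succ _)).trans h1) (dvd_add h2 h3)

/-- all primes of `P` divide `D` -/
theorem WZ0 {P Z S : Finset ℕ} {t D : ℕ} (h : Hy P Z t D) (hS : S ⊆ P)
    (hd : ∀ l ∈ P, l ∣ D ∧ l ∉ Z) : (2 : ℤ) ^ P.card ∣ WZ Z (t * pr S) D := by
  have hPL : P ⊆ D.primeFactors \ Z := by
    intro l hl
    rw [Finset.mem_sdiff, Nat.mem_primeFactors]
    exact ⟨⟨(h.hP l hl).1, (hd l hl).1, h.hD⟩, (hd l hl).2⟩
  have e2' : (2 : ℤ) ^ P.card ∣ ∏ l ∈ D.primeFactors \ Z, fac (t * pr S) D l := by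
    refine Dvd.dvd.trans ?_ (Finset.prod_dvd_prod_of_subset _ _ _ hPL)
    rw [← Finset.prod_const]
    refine Finset.prod_dvd_prod_of_dvd _ _ fun l hl => ?_
    obtain ⟨a1, a2⟩ := h.hP l hl
    obtain ⟨b1, b2⟩ := hd l hl
    have hv1 := h.hv l hl b1 b2
    have hlt : ¬ l ∣ t := fun h' => b2 (h.htZ l a1 h')
    rw [fac_prod h.hP hS hlt a1 (fun _ => hv1), hv1, Finset.sum_range_succ,
      Finset.sum_range_one, pow_zero, pow_one]
    have hs1 : Sgn (jacobiSym (-(t : ℤ)) l) := by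
      apply jac_sgn a1
      rw [dvd_neg]
      intro h'
      exact hlt (by exact_mod_cast h')
    have hs2 : Sgn (∏ p ∈ S, ee D l p) := Sgn.prod fun p hp =>
      ee_sgn h.hP a1 h.hD b1 (fun _ => hv1) (hS hp)
    have := (hs1.mul hs2).odd
    omega
  unfold WZ
  exact Dvd.dvd.mul_left e2' _

end Pool.Agent.N218.P17
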