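import Pool.Agent.N218.P17.Fam
import Pool.Agent.N972.P17.Defs3

/-!
# P17: the sums of the local densities over the families
-/

set_option autoImplicit false

namespace Pool.Agent.N218.P17

open Finset
open Pool.Agent.N969.P15 (tw)
open Pool.Agent.Z700 (hh fac)
open Pool.Agent.N218.P15 (Sgn GS FF abs1 x4 x4_sgn x8 pr jac_pr jac_sgn ee)

/-- the excluded primes -/
def Z1 : Finset ℕ := {2, 17}

/-- the excluded primes, `3` treated separately -/
def Z3 : Finset ℕ := {2, 3, 17}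

/-- the local densities when `17` divides `D` at most once -/
def lo (n1 D : ℕ) : ℤ := if 17 ∣ D then WZ Z1 n1 D else 0

theorem WZ1_eq (n1 D : ℕ) : WZ Z1 n1 D = tw n1 D * ∏ l ∈ (D.primeFactors.erase 2).erase 17,
    fac n1 D l := by
  unfold WZ
  congr 2
  ext l
  simp only [Z1, Finset.mem_sdiff, Finset.mem_insert, Finset.mem_singleton, Finset.mem_erase]
  tauto

theorem loc_lo {n1 D : ℕ} (hD : D ≠ 0) (h : D.factorization 17 ≤ 1) :
    Pool.Agent.N972.P17.loc n1 D = lo n1 D := by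
  have p17 : Nat.Prime 17 := by norm_num
  unfold Pool.Agent.N972.P17.loc lo
  rw [← WZ1_eq]
  by_cases h17 : 17 ∣ D
  · have h1 : 1 ≤ D.factorization 17 := (p17.dvd_iff_one_le_factorization hD).1 h17
    have h2 : D.factorization 17 = 1 := by omega
    rw [if_pos h17, h2, if_pos (by decide)]
  · rw [if_neg h17, Nat.factorization_eq_zero_of_not_dvd h17, if_neg (by decide)]

theorem WZ_three {n1 D : ℕ} (hD : D ≠ 0) :
    WZ Z1 n1 D = (if 3 ∣ D then fac n1 D 3 else 1) * WZ Z3 n1 D := by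
  unfold WZ
  by_cases h3 : 3 ∣ D
  · rw [if_pos h3]
    have e : D.primeFactors \ Z1 = insert 3 (D.primeFactors \ Z3) := by
      ext l
      simp only [Z1, Z3, Finset.mem_sdiff, Finset.mem_insert, Finset.mem_singleton,
        Nat.mem_primeFactors]
      constructor
      · intro h
        by_cases hl : l = 3
        · exact Or.inl hl
        · right; tauto
      · rintro (rfl | h)
        · exact ⟨⟨Nat.prime_three, h3, hD⟩, by norm_num⟩
        · tauto
    have h3n : 3 ∉ D.primeFactors \ Z3 := by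
      simp [Z3]
    rw [e, Finset.prod_insert h3n]
    ring
  · rw [if_neg h3, one_mul]
    congr 2
    ext l
    simp only [Z1, Z3, Finset.mem_sdiff, Finset.mem_insert, Finset.mem_singleton,
        Nat.mem_primeFactors]
    constructor
    · intro h
      refine ⟨h.1, fun h' => ?_⟩
      rcases h' with h' | h' | h'
      · exact h.2 (Or.inl h')
      · exact h3 (h' ▸ h.1.2.1)
      · exact h.2 (Or.inr h')
    · intro h
      exact ⟨h.1, fun h' => h.2 (by tauto)⟩

/-! ### factors `9` -/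

theorem fact9 {E l : ℕ} (hE : E ≠ 0) (hl : l.Prime) (h3 : l ≠ 3) :
    (9 * E).factorization l = E.factorization l := by
  rw [Nat.factorization_mul (by norm_num) hE]
  have h9 : (9 : ℕ).factorization l = 0 := by
    apply Nat.factorization_eq_zero_of_not_dvd
    intro h
    have h1 : l ∣ 3 ^ 2 := by norm_num; exact h
    have h2 := hl.dvd_of_dvd_pow h1
    rw [Nat.prime_dvd_prime_iff_eq hl (by norm_num)] at h2
    exact h3 h2
  simp [h9]

theorem fact9_3 {E : ℕ} (hE : E ≠ 0) : (9 * E).factorization 3 = E.factorization 3 + 2 := by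
  rw [Nat.factorization_mul (by norm_num) hE]
  have h9 : (9 : ℕ).factorization 3 = 2 := by
    have : (9 : ℕ) = 3 ^ 2 := by norm_num
    rw [this, Nat.Prime.factorization_pow (by norm_num)]
    simp
  simp [h9, add_comm]

theorem jac9 (x : ℤ) {l : ℕ} (hl : l.Prime) (h3 : l ≠ 3) :
    jacobiSym (9 * x) l = jacobiSym x l := by
  rw [jacobiSym.mul_left]
  have h1 : jacobiSym (9 : ℤ) l = 1 := by
    have : (9 : ℤ) = 3 ^ 2 := by norm_num
    rw [this]
    apply jacobiSym.sq_one'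
    rw [Int.gcd_comm]
    have h2 : Nat.Coprime l 3 := (Nat.coprime_primes hl (by norm_num)).2 h3
    exact_mod_cast h2
  rw [h1, one_mul]

theorem fac9 (n1 : ℕ) {E l : ℕ} (hE : E ≠ 0) (hl : l.Prime) (h3 : l ≠ 3) :
    fac n1 (9 * E) l = fac n1 E l := by
  unfold fac hh
  rw [fact9 hE hl h3]
  have h1 : 9 * E / l ^ E.factorization l = 9 * (E / l ^ E.factorization l) :=
    Nat.mul_div_assoc _ (Nat.ordProj_dvd E l)
  rw [h1]
  have e1 : (-((9 * (E / l ^ E.factorization l) : ℕ) : ℤ)) =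
      9 * (-((E / l ^ E.factorization l : ℕ) : ℤ)) := by push_cast; ring
  have e2 : (-((n1 / l * (9 * (E / l ^ E.factorization l)) : ℕ) : ℤ)) =
      9 * (-((n1 / l * (E / l ^ E.factorization l) : ℕ) : ℤ)) := by push_cast; ring
  rw [e1, e2, jac9 _ hl h3, jac9 _ hl h3]

theorem WZ9 (n1 : ℕ) {E : ℕ} (hE : E ≠ 0) : WZ Z3 n1 (9 * E) = WZ Z3 n1 E := by
  unfold WZ
  have e1 : (9 * E).primeFactors \ Z3 = E.primeFactors \ Z3 := by
    have h9 : (9 : ℕ).primeFactors = {3} := by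
      have : (9 : ℕ) = 3 ^ 2 := by norm_num
      rw [this, Nat.primeFactors_prime_pow (by norm_num) Nat.prime_three]
    rw [Nat.primeFactors_mul (by norm_num) hE, h9]
    ext x
    simp only [Z3, Finset.mem_sdiff, Finset.mem_insert, Finset.mem_union, Finset.mem_singleton]
    tauto
  have e2 : tw n1 (9 * E) = tw n1 E := by
    unfold tw
    rw [fact9 hE Nat.prime_two (by norm_num)]
  rw [e1, e2]
  congr 1
  refine Finset.prod_congr rfl fun l hl => ?_
  obtain ⟨a1, a2, a3, a4, a5⟩ := mem_Z (by simp [Z3]) hl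
  exact fac9 n1 hE a1 (fun h => a4 (by simp [Z3, h]))

/-! ### the prime `3` -/

/-- the character modulo `3` -/
def y3 (p : ℕ) : ℤ := jacobiSym (p : ℤ) 3

theorem y3_sgn {P : Finset ℕ} (hP : OP P) (h3 : 3 ∉ P) {p : ℕ} (hp : p ∈ P) : Sgn (y3 p) := by
  unfold y3
  apply jac_sgn Nat.prime_three
  intro h1
  have h2 : 3 ∣ p := by exact_mod_cast h1
  have := (Nat.prime_dvd_prime_iff_eq Nat.prime_three (hP p hp).1).1 h2
  exact h3 (this ▸ hp)

theorem y3_pr (S : Finset ℕ) : ∏ p ∈ S, y3 p = y3 (pr S) := (jac_pr S 3).symm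

/-- the factor at `3` for `3 ∤ t` -/
theorem fac3_a {P S : Finset ℕ} (hP : OP P) (h3 : 3 ∉ P) (hS : S ⊆ P) {t D : ℕ} (ht : ¬ 3 ∣ t) :
    fac (t * pr S) D 3 = ∑ j ∈ range (D.factorization 3 + 1),
      (jacobiSym (-(t : ℤ)) 3 * ∏ p ∈ S, y3 p) ^ j := by
  rw [fac_prod hP hS ht Nat.prime_three (fun h => absurd h h3)]
  refine Finset.sum_congr rfl fun j _ => ?_
  congr 2
  refine Finset.prod_congr rfl fun p hp => ?_
  have hp3 : p ≠ 3 := by
    rintro rfl
    exact h3 (hS hp)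
  unfold ee y3
  rw [if_neg hp3]

/-- the factor at `3` for `3 ∣ t` -/
theorem fac3_b {t D : ℕ} (ht : 3 ∣ t) (h9 : ¬ 9 ∣ t) (hD : D ≠ 0) :
    ∃ κ : ℤ, Sgn κ ∧ ∀ P S : Finset ℕ, OP P → 3 ∉ P → S ⊆ P →
      fac (t * pr S) D 3 = if Even (D.factorization 3) then 1 + κ else 1 + κ * ∏ p ∈ S, y3 p := by
  have hu : ¬ (3 : ℤ) ∣ -((D / 3 ^ D.factorization 3 : ℕ) : ℤ) := by
    rw [dvd_neg]
    intro h
    have h' : 3 ∣ D / 3 ^ D.factorization 3 := by exact_mod_cast h
    exact Nat.not_dvd_ordCompl Nat.prime_three hD h'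
  have hu' : Sgn (jacobiSym (-((D / 3 ^ D.factorization 3 : ℕ) : ℤ)) 3) :=
    jac_sgn Nat.prime_three hu
  obtain ⟨t', rfl⟩ := ht
  have ht' : ¬ 3 ∣ t' := by
    rintro ⟨c, rfl⟩
    exact h9 ⟨c, by ring⟩
  have ht5 : Sgn (jacobiSym (t' : ℤ) 3) := by
    apply jac_sgn Nat.prime_three
    intro h
    exact ht' (by exact_mod_cast h)
  by_cases hev : Even (D.factorization 3)
  · refine ⟨_, hu', fun P S hP h3 hS => ?_⟩
    have hdvd : 3 ∣ 3 * t' * pr S := by rw [mul_assoc]; exact dvd_mul_right 3 _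
    unfold fac hh
    rw [if_pos hev, if_pos hdvd, if_pos hev]
  · refine ⟨jacobiSym (-((D / 3 ^ D.factorization 3 : ℕ) : ℤ)) 3 * jacobiSym (t' : ℤ) 3,
      hu'.mul ht5, fun P S hP h3 hS => ?_⟩
    have hdvd : 3 ∣ 3 * t' * pr S := by rw [mul_assoc]; exact dvd_mul_right 3 _
    unfold fac hh
    rw [if_neg hev, if_pos hdvd, if_neg hev]
    congr 1
    rw [mul_assoc, Nat.mul_div_cancel_left _ (by norm_num : 0 < 3), y3_pr]
    unfold y3
    rw [← jacobiSym.mul_left, ← jacobiSym.mul_left]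
    congr 1
    push_cast
    ring

/-- geometric sums of a sign -/
def ae (n : ℕ) : ℤ := ((n / 2 + 1 : ℕ) : ℤ)

def be (n : ℕ) : ℤ := (((n + 1) / 2 : ℕ) : ℤ)

theorem geo {x : ℤ} (hx : Sgn x) (n : ℕ) : ∑ j ∈ range (n + 1), x ^ j = ae n + be n * x := by
  have h2 : x ^ 2 = 1 := by rcases hx with rfl | rfl <;> norm_num
  induction n with
  | zero => simp [ae, be]
  | succ n ih =>
    rw [Finset.sum_range_succ, ih]
    rcases Nat.even_or_odd' n with ⟨k, rfl | rfl⟩
    · have e1 : 2 * k / 2 = k := by omega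
      have e2 : (2 * k + 1) / 2 = k := by omega
      have e3 : (2 * k + 1 + 1) / 2 = k + 1 := by omega
      unfold ae be
      rw [e1, e2, e3, pow_succ, pow_mul, h2, one_pow]
      push_cast
      ring
    · have e1 : (2 * k + 1) / 2 = k := by omega
      have e2 : (2 * k + 1 + 1) / 2 = k + 1 := by omega
      have e3 : (2 * k + 1 + 1 + 1) / 2 = k + 1 := by omega
      unfold ae be
      rw [e1, e2, e3, show 2 * k + 1 + 1 = 2 * (k + 1) by ring, pow_mul, h2, one_pow]
      push_cast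
      ring

theorem ae_two (v : ℕ) : ae (v + 2) = ae v + 1 := by
  unfold ae
  rw [show (v + 2) / 2 = v / 2 + 1 by omega]
  push_cast; ring

theorem be_two (v : ℕ) : be (v + 2) = be v + 1 := by
  unfold be
  rw [show (v + 2 + 1) / 2 = (v + 1) / 2 + 1 by omega]
  push_cast; ring

theorem ae_be (v : ℕ) : ae v + be v = v + 1 := by
  unfold ae be
  have : v / 2 + 1 + (v + 1) / 2 = v + 1 := by omega
  exact_mod_cast this

/-- the sum over a family of the local densities -/
def FL (P : Finset ℕ) (t D : ℕ) (ψ : ℕ → ℤ) : ℤ :=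
  ∑ S ∈ P.powerset.filter (fun S => pr S % 4 = rt t), (∏ p ∈ S, ψ p) * lo (t * pr S) D

/-- the families with `17 ∤ t`, or `17 ∣ t` -/
def T17 (t : ℕ) : Prop := t = 1 ∨ t = 17 ∨ t = 3 ∨ t = 51

theorem T17.odd {t : ℕ} (h : T17 t) : t % 2 = 1 := by
  rcases h with rfl | rfl | rfl | rfl <;> rfl

theorem T17.mem {t : ℕ} (h : T17 t) {l : ℕ} (hl : l.Prime) (hlt : l ∣ t) : l ∈ Z3 := by
  have a3 : l ∣ 3 → l ∈ Z3 := fun h => by
    have := (Nat.prime_dvd_prime_iff_eq hl Nat.prime_three).1 h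
    simp [Z3, this]
  have a17 : l ∣ 17 → l ∈ Z3 := fun h => by
    have := (Nat.prime_dvd_prime_iff_eq hl (by norm_num)).1 h
    simp [Z3, this]
  rcases h with rfl | rfl | rfl | rfl
  · exact absurd (Nat.dvd_one.1 hlt) hl.one_lt.ne'
  · exact a17 hlt
  · exact a3 hlt
  · rw [show (51 : ℕ) = 3 * 17 by norm_num] at hlt
    rcases (Nat.Prime.dvd_mul hl).1 hlt with h | h
    · exact a3 h
    · exact a17 h

theorem mem1 {t : ℕ} (h : t = 1 ∨ t = 17) {l : ℕ} (hl : l.Prime) (hlt : l ∣ t) : l ∈ Z1 := by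
  rcases h with rfl | rfl
  · exact absurd (Nat.dvd_one.1 hlt) hl.one_lt.ne'
  · have := (Nat.prime_dvd_prime_iff_eq hl (by norm_num)).1 hlt
    simp [Z1, this]

/-- the hypotheses on `P` and `D` -/
structure PD (P : Finset ℕ) (D : ℕ) : Prop where
  hP : OP P
  hv : ∀ l ∈ P, l ∣ D → D.factorization l = 1
  hD : D ≠ 0

theorem PD.one {P : Finset ℕ} {D t : ℕ} (h : PD P D) (ht : t = 1 ∨ t = 17) : Hy P Z1 t D where
  hP := h.hP
  h2Z := by simp [Z1]
  ht2 := by rcases ht with rfl | rfl <;> rfl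
  htZ := fun _ hl hlt => mem1 ht hl hlt
  hv := fun l hl hlD _ => h.hv l hl hlD
  hD := h.hD

theorem PD.three {P : Finset ℕ} {D t : ℕ} (h : PD P D) (ht : T17 t) : Hy P Z3 t D where
  hP := h.hP
  h2Z := by simp [Z3]
  ht2 := ht.odd
  htZ := fun _ hl hlt => ht.mem hl hlt
  hv := fun l hl hlD _ => h.hv l hl hlD
  hD := h.hD

/-- one family, `t = 1, 17` -/
theorem FL1 {P : Finset ℕ} {D t : ℕ} (h : PD P D) (ht : t = 1 ∨ t = 17) {ψ : ℕ → ℤ}
    (hψ : ∀ p ∈ P, Sgn (ψ p)) : (2 : ℤ) ^ P.card ∣ 2 * FL P t D ψ := by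
  by_cases h17 : 17 ∣ D
  · have e : FL P t D ψ = FS P Z1 t D ψ := by
      unfold FL FS lo
      simp only [if_pos h17]
    rw [e]
    exact fam2 (h.one ht) hψ
  · have e : FL P t D ψ = 0 := by
      unfold FL lo
      simp only [if_neg h17, mul_zero, Finset.sum_const_zero]
    rw [e, mul_zero]
    exact dvd_zero _

/-- two families together, `t = 1, 17` -/
theorem FL11 {P : Finset ℕ} {D : ℕ} (h : PD P D) {ψ : ℕ → ℤ}
    (hψ : ∀ p ∈ P, Sgn (ψ p)) : (2 : ℤ) ^ P.card ∣ FL P 1 D ψ + FL P 17 D ψ := by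
  by_cases h17 : 17 ∣ D
  · have e : ∀ t, FL P t D ψ = FS P Z1 t D ψ := by
      intro t
      unfold FL FS lo
      simp only [if_pos h17]
    rw [e, e]
    have A := fam (h.one (Or.inl rfl)) hψ
    have B := fam (h.one (Or.inr rfl)) hψ
    have C1 := YY_dvd (h.one (Or.inl rfl)) hψ
    have C2 := YY_dvd (h.one (Or.inl rfl)) (ψ := fun p => ψ p * x4 p)
      (fun p hp => (hψ p hp).mul (x4_sgn p))
    have C3 := dvd_add C1 C2
    have h2 : (2 : ℤ) ^ (P.card + 1) ∣ 2 * (FS P Z1 1 D ψ + FS P Z1 17 D ψ) := by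
      have e' : 2 * (FS P Z1 1 D ψ + FS P Z1 17 D ψ) =
          (2 * FS P Z1 1 D ψ - (YY P Z1 D ψ + YY P Z1 D (fun p => ψ p * x4 p))) +
          (2 * FS P Z1 17 D ψ - (YY P Z1 D ψ + YY P Z1 D (fun p => ψ p * x4 p))) +
          2 * (YY P Z1 D ψ + YY P Z1 D (fun p => ψ p * x4 p)) := by ring
      rw [e']
      refine dvd_add (dvd_add A B) ?_
      rw [pow_succ, mul_comm ((2 : ℤ) ^ _) 2]
      exact mul_dvd_mul_left 2 C3
    rw [pow_succ, mul_comm ((2 : ℤ) ^ _) 2] at h2
    exact (mul_dvd_mul_iff_left (by norm_num : (2 : ℤ) ≠ 0)).1 h2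
  · have e : ∀ t, FL P t D ψ = 0 := by
      intro t
      unfold FL lo
      simp only [if_neg h17, mul_zero, Finset.sum_const_zero]
    rw [e, e]
    simp

/-- the reference value away from `3` -/
def RA (P : Finset ℕ) (D : ℕ) : ℤ :=
  if 17 ∣ D then YY P Z3 D (fun _ => 1) + YY P Z3 D (fun p => 1 * x4 p) else 0

/-- the reference value, `3` divides the inner product -/
def RB (P : Finset ℕ) (E : ℕ) : ℤ :=
  if 17 ∣ E ∧ ¬ Even (E.factorization 3) then
    (YY P Z3 E (fun _ => 1) + YY P Z3 E (fun p => 1 * x4 p)) +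
    (YY P Z3 E y3 + YY P Z3 E (fun p => y3 p * x4 p)) else 0

theorem one_sgn {P : Finset ℕ} : ∀ p ∈ P, Sgn ((fun _ => 1 : ℕ → ℤ) p) := fun _ _ => Or.inl rfl

/-- `3 ∤ D` -/
theorem famA {P : Finset ℕ} {D t : ℕ} (h : PD P D) (ht : T17 t) (h3 : ¬ 3 ∣ D) :
    (2 : ℤ) ^ (P.card + 1) ∣ 2 * FL P t D (fun _ => 1) - RA P D ∧ (2 : ℤ) ^ P.card ∣ RA P D := by
  by_cases h17 : 17 ∣ D
  · have e : FL P t D (fun _ => 1) = FS P Z3 t D (fun _ => 1) := by
      unfold FL FS lo
      simp only [if_pos h17, WZ_three h.hD, if_neg h3, one_mul]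
    unfold RA
    rw [e, if_pos h17]
    exact ⟨fam (h.three ht) one_sgn, dvd_add (YY_dvd (h.three ht) one_sgn)
      (YY_dvd (h.three ht) fun p hp => (one_sgn p hp).mul (x4_sgn p))⟩
  · have e : FL P t D (fun _ => 1) = 0 := by
      unfold FL lo
      simp only [if_neg h17, mul_zero, Finset.sum_const_zero]
    unfold RA
    rw [e, if_neg h17]
    simp

/-- one family for `3 ∣ t`, `D = 9 E` -/
theorem famB {P : Finset ℕ} {E t : ℕ} (h : PD P E) (hP3 : 3 ∉ P) (ht : t = 3 ∨ t = 51) :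
    (2 : ℤ) ^ (P.card + 1) ∣ 2 * FL P t (9 * E) (fun _ => 1) - RB P E := by
  have ht' : T17 t := by rcases ht with rfl | rfl <;> simp [T17]
  have h9E : 9 * E ≠ 0 := Nat.mul_ne_zero (by norm_num) h.hD
  have h17 : 17 ∣ 9 * E ↔ 17 ∣ E := by omega
  obtain ⟨κ, hκ, hf⟩ := fac3_b (t := t) (D := 9 * E) (by rcases ht with rfl | rfl <;> norm_num)
    (by rcases ht with rfl | rfl <;> norm_num) h9E
  by_cases h17' : 17 ∣ E
  swap
  · have e : FL P t (9 * E) (fun _ => 1) = 0 := by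
      unfold FL lo
      simp only [if_neg (fun h => h17' (h17.1 h)), mul_zero, Finset.sum_const_zero]
    unfold RB
    rw [e, if_neg (fun h => h17' h.1)]
    simp
  have hev : Even ((9 * E).factorization 3) ↔ Even (E.factorization 3) := by
    rw [fact9_3 h.hD, Nat.even_add]
    simp
  have A1 := fam (h.three ht') (ψ := fun _ => 1) one_sgn
  have A2 := fam (h.three ht') (ψ := y3) (fun p hp => y3_sgn h.hP hP3 hp)
  have B1 := fam2 (h.three ht') (ψ := fun _ => 1) one_sgn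
  have B2 := fam2 (h.three ht') (ψ := y3) (fun p hp => y3_sgn h.hP hP3 hp)
  by_cases hv : Even (E.factorization 3)
  · have e : FL P t (9 * E) (fun _ => 1) = (1 + κ) * FS P Z3 t E (fun _ => 1) := by
      unfold FL FS lo
      rw [Finset.mul_sum]
      refine Finset.sum_congr rfl fun S hS => ?_
      obtain ⟨a1, a2⟩ := Finset.mem_filter.1 hS
      rw [if_pos (h17.2 h17'), WZ_three h9E, if_pos ⟨3 * E, by ring⟩,
        hf P S h.hP hP3 (Finset.mem_powerset.1 a1), if_pos (hev.2 hv), WZ9 _ h.hD]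
      ring
    unfold RB
    rw [e, if_neg (fun h => h.2 hv), sub_zero, pow_succ, mul_comm ((2 : ℤ) ^ _) 2,
      show 2 * ((1 + κ) * FS P Z3 t E (fun _ => 1)) =
        (1 + κ) * (2 * FS P Z3 t E (fun _ => 1)) by ring]
    refine mul_dvd_mul ?_ B1
    have := hκ.odd
    omega
  · have e : FL P t (9 * E) (fun _ => 1) = FS P Z3 t E (fun _ => 1) + κ * FS P Z3 t E y3 := by
      unfold FL FS lo
      rw [Finset.mul_sum, ← Finset.sum_add_distrib]
      refine Finset.sum_congr rfl fun S hS => ?_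
      obtain ⟨a1, a2⟩ := Finset.mem_filter.1 hS
      rw [if_pos (h17.2 h17'), WZ_three h9E, if_pos ⟨3 * E, by ring⟩,
        hf P S h.hP hP3 (Finset.mem_powerset.1 a1), if_neg (fun h => hv (hev.1 h)), WZ9 _ h.hD,
        Finset.prod_const_one]
      ring
    unfold RB
    rw [e, if_pos ⟨h17', hv⟩]
    have e' : ∀ a b c d : ℤ, 2 * (a + κ * b) - (c + d) = (2 * a - c) + (κ * (2 * b) - d) :=
      fun a b c d => by ring
    rw [e']
    exact dvd_add A1 (parity B2 A2 hκ)

/-- one family for `3 ∤ t`, `D = 9 E` and `E` -/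
theorem famC {P : Finset ℕ} {E t : ℕ} (h : PD P E) (hP3 : 3 ∉ P) (ht : t = 1 ∨ t = 17) {γ : ℤ}
    (hγ : Sgn γ) : (2 : ℤ) ^ (P.card + 1) ∣
      2 * (FL P t (9 * E) (fun _ => 1) + γ * FL P t E y3) - RB P E := by
  have ht' : T17 t := by rcases ht with rfl | rfl <;> simp [T17]
  have ht3 : ¬ 3 ∣ t := by rcases ht with rfl | rfl <;> norm_num
  have h9E : 9 * E ≠ 0 := Nat.mul_ne_zero (by norm_num) h.hD
  have h17 : 17 ∣ 9 * E ↔ 17 ∣ E := by omega
  by_cases h17' : 17 ∣ E
  swap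
  · have e : FL P t (9 * E) (fun _ => 1) = 0 := by
      unfold FL lo
      simp only [if_neg (fun h => h17' (h17.1 h)), mul_zero, Finset.sum_const_zero]
    have e' : FL P t E y3 = 0 := by
      unfold FL lo
      simp only [if_neg h17', mul_zero, Finset.sum_const_zero]
    unfold RB
    rw [e, e', if_neg (fun h => h17' h.1)]
    simp
  set v := E.factorization 3 with hv
  set σ : ℤ := jacobiSym (-(t : ℤ)) 3 with hσ
  have hσs : Sgn σ := by
    rw [hσ]
    apply jac_sgn Nat.prime_three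
    rw [dvd_neg]
    intro h'
    exact ht3 (by exact_mod_cast h')
  have A1 := fam (h.three ht') (ψ := fun _ => 1) one_sgn
  have A2 := fam (h.three ht') (ψ := y3) (fun p hp => y3_sgn h.hP hP3 hp)
  have B1 := fam2 (h.three ht') (ψ := fun _ => 1) one_sgn
  have B2 := fam2 (h.three ht') (ψ := y3) (fun p hp => y3_sgn h.hP hP3 hp)
  have hfac : ∀ S ⊆ P, ∀ D : ℕ, D ≠ 0 → (if 3 ∣ D then fac (t * pr S) D 3 else 1) =
      ae (D.factorization 3) + be (D.factorization 3) * (σ * ∏ p ∈ S, y3 p) := by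
    intro S hS D hD
    by_cases h3 : 3 ∣ D
    · rw [if_pos h3, fac3_a h.hP hP3 hS ht3, geo]
      exact hσs.mul (Sgn.prod fun p hp => y3_sgn h.hP hP3 (hS hp))
    · rw [if_neg h3, Nat.factorization_eq_zero_of_not_dvd h3]
      simp [ae, be]
  have hy2 : ∀ S ⊆ P, (∏ p ∈ S, y3 p) * (∏ p ∈ S, y3 p) = 1 := by
    intro S hS
    have : Sgn (∏ p ∈ S, y3 p) := Sgn.prod fun p hp => y3_sgn h.hP hP3 (hS hp)
    rcases this with h | h <;> rw [h] <;> norm_num
  have e : FL P t (9 * E) (fun _ => 1) + γ * FL P t E y3 =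
      (ae v + 1 + γ * σ * be v) * FS P Z3 t E (fun _ => 1) +
        (σ * (be v + 1) + γ * ae v) * FS P Z3 t E y3 := by
    unfold FL FS lo
    rw [Finset.mul_sum, Finset.mul_sum, Finset.mul_sum, ← Finset.sum_add_distrib,
      ← Finset.sum_add_distrib]
    refine Finset.sum_congr rfl fun S hS => ?_
    obtain ⟨a1, a2⟩ := Finset.mem_filter.1 hS
    have a3 := Finset.mem_powerset.1 a1
    rw [if_pos (h17.2 h17'), if_pos h17', WZ_three h9E, WZ_three h.hD, WZ9 _ h.hD,
      hfac S a3 (9 * E) h9E, hfac S a3 E h.hD, fact9_3 h.hD, ← hv, ae_two, be_two,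
      Finset.prod_const_one]
    have := hy2 S a3
    linear_combination (γ * be v * σ * WZ Z3 (t * pr S) E) * this
  rw [e]
  have par : ∀ x y : ℤ, ∀ c : ℤ, (2 : ℤ) ^ P.card ∣ 2 * x → (2 : ℤ) ^ (P.card + 1) ∣ 2 * x - y →
      (Odd c → (2 : ℤ) ^ (P.card + 1) ∣ 2 * (c * x) - y) ∧
      (Even c → (2 : ℤ) ^ (P.card + 1) ∣ 2 * (c * x)) := by
    intro x y c h1 h2
    have h3 : ∀ k : ℤ, (2 : ℤ) ^ (P.card + 1) ∣ (2 * k) * (2 * x) := by
      intro k
      rw [pow_succ, mul_comm ((2 : ℤ) ^ _) 2]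
      exact mul_dvd_mul (Dvd.intro _ rfl) h1
    constructor
    · rintro ⟨k, rfl⟩
      have e1 : 2 * ((2 * k + 1) * x) - y = (2 * k) * (2 * x) + (2 * x - y) := by ring
      rw [e1]
      exact dvd_add (h3 k) h2
    · rintro ⟨k, rfl⟩
      have e1 : 2 * ((k + k) * x) = (2 * k) * (2 * x) := by ring
      rw [e1]
      exact h3 k
  have hab := ae_be v
  have hγo : Odd γ := by rcases hγ with h | h <;> rw [h] <;> decide
  have hσo : Odd σ := by rcases hσs with h | h <;> rw [h] <;> decide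
  have e' : ∀ a b : ℤ, 2 * (a + b) = 2 * a + 2 * b := fun a b => by ring
  rw [e']
  unfold RB
  by_cases hev : Even v
  · rw [if_neg (fun h => h.2 hev), sub_zero]
    have hev' : Even (v : ℤ) := by exact_mod_cast hev
    have p1 : Even (ae v + 1 + γ * σ * be v) := by
      have : ae v + 1 + γ * σ * be v = (ae v + be v + 1) + (γ * σ - 1) * be v := by ring
      rw [this, hab]
      refine Even.add ?_ (Even.mul_right ((hγo.mul hσo).sub_odd odd_one) _)
      have : (v : ℤ) + 1 + 1 = v + 2 := by ring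
      rw [this]
      exact hev'.add (by decide)
    have p2 : Even (σ * (be v + 1) + γ * ae v) := by
      have : σ * (be v + 1) + γ * ae v = (ae v + be v + 1) + (σ - 1) * (be v + 1) +
        (γ - 1) * ae v := by ring
      rw [this, hab]
      refine Even.add (Even.add ?_ (Even.mul_right (hσo.sub_odd odd_one) _))
        (Even.mul_right (hγo.sub_odd odd_one) _)
      have : (v : ℤ) + 1 + 1 = v + 2 := by ring
      rw [this]
      exact hev'.add (by decide)
    exact dvd_add ((par _ _ _ B1 A1).2 p1) ((par _ _ _ B2 A2).2 p2)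
  · rw [if_pos ⟨h17', hev⟩]
    have hev' : Odd (v : ℤ) := by
      have := Nat.not_even_iff_odd.1 hev
      exact_mod_cast this
    have p1 : Odd (ae v + 1 + γ * σ * be v) := by
      have : ae v + 1 + γ * σ * be v = (ae v + be v + 1) + (γ * σ - 1) * be v := by ring
      rw [this, hab]
      refine Odd.add_even ?_ (Even.mul_right ((hγo.mul hσo).sub_odd odd_one) _)
      have : (v : ℤ) + 1 + 1 = v + 2 := by ring
      rw [this]
      exact hev'.add_even (by decide)
    have p2 : Odd (σ * (be v + 1) + γ * ae v) := by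
      have : σ * (be v + 1) + γ * ae v = (ae v + be v + 1) + (σ - 1) * (be v + 1) +
        (γ - 1) * ae v := by ring
      rw [this, hab]
      refine Odd.add_even (Odd.add_even ?_ (Even.mul_right (hσo.sub_odd odd_one) _))
        (Even.mul_right (hγo.sub_odd odd_one) _)
      have : (v : ℤ) + 1 + 1 = v + 2 := by ring
      rw [this]
      exact hev'.add_even (by decide)
    have e'' : ∀ a b c d : ℤ, a + b - (c + d) = (a - c) + (b - d) := fun a b c d => by ring
    rw [e'']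
    exact dvd_add ((par _ _ _ B1 A1).1 p1) ((par _ _ _ B2 A2).1 p2)

end Pool.Agent.N218.P17
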