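import Pool.Agent.N218.P17.Loc
import Pool.Agent.N218.P15.Five
import Pool.Agent.N871.P17.U

/-!
# P17: the divisibilities in the ramified case
-/

set_option autoImplicit false

namespace Pool.Agent.N218.P17

open Finset
open Pool.Agent.N969.P15 (tw V3)
open Pool.Agent.Z700 (hh fac)
open Pool.Agent.N218.P15 (Sgn GS FF abs1 x4 x4_sgn x8 pr jac_pr jac_sgn ee sum_symm' val1 val_mul
  pr_dvd quo_eq sum_div_filter card_cop)
open Pool.Agent.N972.P17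
open Pool.Agent.N871.P17 (SS_sum SS_symm rr_mul)

/-- PCR in the form without the symbol -/
def S_PCR' : Prop := ∀ (n1 n2 : ℕ) (b : ℤ) (D : ℕ), Cr n1 → 0 < D → (D : ℤ) = n1 * n2 - b ^ 2 →
  (3 * cp1 n1 b n2 + cp2 n1 b n2 : ℤ) = 6 * (if 17 ∣ D then
    tw n1 D * ∏ l ∈ (D.primeFactors.erase 2).erase 17, fac n1 D l else 0)

/-- the pair counts -/
def GP (n1 n2 : ℕ) : Prop := ∀ (b : ℤ) (D : ℕ), 0 < D → (D : ℤ) = n1 * n2 - b ^ 2 →
  (3 * cp1 n1 b n2 + cp2 n1 b n2 : ℤ) = 6 * lo n1 D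

/-- the discriminant -/
def DN (N : ℕ) (b : ℤ) : ℕ := ((N : ℤ) - b ^ 2).toNat

theorem DN_neg (N : ℕ) (b : ℤ) : DN N (-b) = DN N b := by
  unfold DN
  rw [neg_sq]

theorem DN_zero (N : ℕ) : DN N 0 = N := by
  unfold DN; simp

theorem DN_nine (N : ℕ) (b : ℤ) : DN (9 * N) (3 * b) = 9 * DN N b := by
  unfold DN
  have e : ((9 * N : ℕ) : ℤ) - (3 * b) ^ 2 = 9 * ((N : ℤ) - b ^ 2) := by push_cast; ring
  rw [e]
  omega

theorem DN_eq {N : ℕ} {b : ℤ} (h : DN N b ≠ 0) : (DN N b : ℤ) = N - b ^ 2 := by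
  unfold DN at h ⊢
  omega

theorem lo_zero (n1 : ℕ) : lo n1 0 = 0 := by
  unfold lo
  rw [WZ_small _ _ (by simp)]
  simp

/-- the valuation at `17` -/
theorem v17 {q D : ℕ} {b : ℤ} (hq : ¬ 17 ∣ q) (hD : (D : ℤ) = ((17 * q : ℕ) : ℤ) - b ^ 2) (hD0 : D ≠ 0) :
    D.factorization 17 ≤ 1 := by
  by_contra hcon
  have p17 : Nat.Prime 17 := by norm_num
  have h1 : 17 ^ 2 ∣ D := (Nat.Prime.pow_dvd_iff_le_factorization p17 hD0).2 (by omega)
  obtain ⟨c, rfl⟩ := h1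
  have hb : (17 : ℤ) ∣ b := by
    have : (17 : ℤ) ∣ b ^ 2 := ⟨q - 17 * c, by push_cast at hD; linarith⟩
    exact (Nat.prime_iff_prime_int.1 p17).dvd_of_dvd_pow this
  obtain ⟨x, rfl⟩ := hb
  apply hq
  have : (17 : ℤ) ∣ (q : ℤ) := ⟨c + x ^ 2, by push_cast at hD; linarith⟩
  exact_mod_cast this

theorem nsq17 {q : ℕ} (hq : ¬ 17 ∣ q) (b : ℤ) : b ^ 2 ≠ ((17 * q : ℕ) : ℤ) := by
  intro hb
  have p17 : Nat.Prime 17 := by norm_num
  have h1 : (17 : ℤ) ∣ b := by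
    have : (17 : ℤ) ∣ b ^ 2 := ⟨q, by rw [hb]; push_cast; ring⟩
    exact (Nat.prime_iff_prime_int.1 p17).dvd_of_dvd_pow this
  obtain ⟨x, rfl⟩ := h1
  apply hq
  have : (17 : ℤ) ∣ (q : ℤ) := ⟨x ^ 2, by push_cast at hb; linarith⟩
  exact_mod_cast this

theorem gp_PC (hPC : S_PC) {n1 n2 q : ℕ} (hs : Squarefree n1) (h4 : n1 % 4 = 3) (h17 : ¬ 17 ∣ n1)
    (hN : n1 * n2 = 17 * q) (hq : ¬ 17 ∣ q) : GP n1 n2 := by
  intro b D hD hDD
  have hN' : (n1 : ℤ) * n2 = ((17 * q : ℕ) : ℤ) := by exact_mod_cast hN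
  rw [hPC n1 n2 b D hs h4 h17 hD hDD, loc_lo hD.ne' (v17 hq (by rw [← hN']; exact hDD) hD.ne')]

theorem gp_PCR (hR : S_PCR') {n1 : ℕ} (n2 : ℕ) (h : Cr n1) : GP n1 n2 := by
  intro b D hD hDD
  rw [hR n1 n2 b D h hD hDD]
  unfold lo
  rw [WZ1_eq]

/-- the weighted number of all pairs -/
theorem SS_lo {n1 n2 N B : ℕ} (hG : GP n1 n2) (hN : n1 * n2 = N) (hn2 : 0 < n2)
    (hsq : ∀ b : ℤ, b ^ 2 ≠ N) (hB : N < B ^ 2) :
    SS n1 n2 = 6 * ∑ b ∈ Ioo (-(B : ℤ)) B, lo n1 (DN N b) := by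
  have hN' : (n1 : ℤ) * n2 = N := by exact_mod_cast hN
  set B0 := Nat.sqrt N + 1 with hB0
  have h1 : N < B0 ^ 2 := by
    have := Nat.lt_succ_sqrt' N
    rwa [Nat.succ_eq_add_one] at this
  have h2 : B0 ≤ B := by
    have : Nat.sqrt N < B := Nat.sqrt_lt'.2 hB
    omega
  have hin : ∀ b ∈ Ioo (-(B0 : ℤ)) B0, b ^ 2 < (N : ℤ) := by
    intro b hb
    rw [Finset.mem_Ioo] at hb
    have h4 : |b| ≤ Nat.sqrt N := by
      rw [abs_le]
      constructor <;> omega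
    have h5 : b ^ 2 ≤ ((Nat.sqrt N ^ 2 : ℕ) : ℤ) := by
      rw [← sq_abs]
      push_cast
      exact pow_le_pow_left₀ (abs_nonneg _) h4 2
    have h6 : ((Nat.sqrt N ^ 2 : ℕ) : ℤ) ≤ (N : ℤ) := by
      exact_mod_cast Nat.sqrt_le' N
    exact lt_of_le_of_ne (h5.trans h6) (hsq b)
  have h3 : SS n1 n2 = 6 * ∑ b ∈ Ioo (-(B0 : ℤ)) B0, lo n1 (DN N b) := by
    rw [SS_sum (B := B0) hn2 (by rw [hN]; exact h1), Finset.mul_sum]
    refine Finset.sum_congr rfl fun b hb => ?_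
    have hpos := hin b hb
    have hDe : (DN N b : ℤ) = N - b ^ 2 := by
      unfold DN
      exact Int.toNat_of_nonneg (by linarith)
    exact hG b (DN N b) (by omega) (by rw [hDe, hN'])
  rw [h3]
  congr 1
  refine Finset.sum_subset ?_ ?_
  · intro b hb
    rw [Finset.mem_Ioo] at hb ⊢
    omega
  · intro b hb hb'
    have : DN N b = 0 := by
      unfold DN
      rw [Finset.mem_Ioo] at hb'
      have h5 : (B0 : ℤ) ≤ |b| := by
        by_contra hcon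
        push Not at hcon
        exact hb' (abs_lt.1 hcon)
      have h6 : (B0 : ℤ) ^ 2 ≤ b ^ 2 := by
        rw [← sq_abs b]
        exact pow_le_pow_left₀ (by positivity) h5 2
      have h7 : (N : ℤ) < (B0 : ℤ) ^ 2 := by exact_mod_cast h1
      omega
    rw [this, lo_zero]

/-- the data -/
structure AD (A m : ℕ) : Prop where
  hs : Squarefree A
  h2 : A % 2 = 1
  h17 : ¬ 17 ∣ m
  hAm : A ∣ m
  hm : 0 < m

theorem AD.nd {A m : ℕ} (h : AD A m) : ¬ 17 ∣ A := fun h' => h.h17 (h'.trans h.hAm)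

theorem AD.OP {A m : ℕ} (h : AD A m) : OP A.primeFactors := by
  intro p hp
  refine ⟨Nat.prime_of_mem_primeFactors hp, ?_⟩
  rintro rfl
  have := Nat.dvd_of_mem_primeFactors hp
  have := h.h2
  omega

theorem sqf {t A d : ℕ} (ht : T17 t) (hA : Squarefree A) (h3 : (t = 3 ∨ t = 51) → ¬ 3 ∣ A)
    (h17 : ¬ 17 ∣ A) (hd : d ∣ A) : Squarefree (t * d) := by
  have hd' := hA.squarefree_of_dvd hd
  have p17 : Nat.Prime 17 := by norm_num
  have c17 : Nat.Coprime 17 d :=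
    (Nat.Prime.coprime_iff_not_dvd p17).2 fun h => h17 (h.trans hd)
  rw [Nat.squarefree_mul_iff]
  rcases ht with rfl | rfl | rfl | rfl
  · exact ⟨Nat.coprime_one_left d, squarefree_one, hd'⟩
  · exact ⟨c17, p17.squarefree, hd'⟩
  · have c3 : Nat.Coprime 3 d :=
      (Nat.Prime.coprime_iff_not_dvd Nat.prime_three).2 fun h => h3 (Or.inl rfl) (h.trans hd)
    exact ⟨c3, Nat.prime_three.squarefree, hd'⟩
  · have c3 : Nat.Coprime 3 d :=
      (Nat.Prime.coprime_iff_not_dvd Nat.prime_three).2 fun h => h3 (Or.inr rfl) (h.trans hd)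
    have s51 : Squarefree 51 := by
      rw [show (51 : ℕ) = 3 * 17 by norm_num, Nat.squarefree_mul_iff]
      exact ⟨by norm_num, Nat.prime_three.squarefree, p17.squarefree⟩
    exact ⟨(show (51 : ℕ) = 3 * 17 by norm_num) ▸ Nat.Coprime.mul_left c3 c17, s51, hd'⟩

theorem gp {A m t u d q : ℕ} (h : AD A m) (hPC : S_PC) (hR : 17 ∣ t → S_PCR') (ht : T17 t)
    (h3 : (t = 3 ∨ t = 51) → ¬ 3 ∣ A) (hd : d ∣ A) (h4 : d % 4 = rt t)
    (hN : t * u * m = 17 * q) (hq : ¬ 17 ∣ q) : GP (t * d) (u * (m / d)) := by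
  have hs := sqf ht h.hs h3 h.nd hd
  have h4' := rt_mul ht.odd h4
  by_cases h17 : 17 ∣ t
  · exact gp_PCR (hR h17) _ ⟨hs, h4', Dvd.dvd.mul_right h17 _⟩
  · refine gp_PC hPC hs h4' ?_ ?_ hq
    · intro h'
      rcases (Nat.Prime.dvd_mul (by norm_num : Nat.Prime 17)).1 h' with h' | h'
      · exact h17 h'
      · exact h.nd (h'.trans hd)
    · have e : d * (m / d) = m := Nat.mul_div_cancel' (hd.trans h.hAm)
      calc t * d * (u * (m / d)) = t * u * (d * (m / d)) := by ring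
        _ = t * u * m := by rw [e]
        _ = 17 * q := hN

/-- the sum over a family of pairs -/
theorem PS {A m t u q B : ℕ} (h : AD A m) (hPC : S_PC) (hR : 17 ∣ t → S_PCR') (ht : T17 t)
    (h3 : (t = 3 ∨ t = 51) → ¬ 3 ∣ A) (hu : 0 < u)
    (hN : t * u * m = 17 * q) (hq : ¬ 17 ∣ q) (hB : t * u * m < B ^ 2) {ψ ψv : ℕ → ℤ}
    (hψ : ∀ S ⊆ A.primeFactors, ∏ p ∈ S, ψ p = ψv (pr S)) :
    ∑ d ∈ A.divisors.filter (fun d => d % 4 = rt t), ψv d * SS (t * d : ℕ) (u * (m / d) : ℕ) =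
      6 * ∑ b ∈ Ioo (-(B : ℤ)) B, FL A.primeFactors t (DN (t * u * m) b) ψ := by
  have key : ∀ d ∈ A.divisors.filter (fun d => d % 4 = rt t),
      ψv d * SS (t * d : ℕ) (u * (m / d) : ℕ) =
        ∑ b ∈ Ioo (-(B : ℤ)) B, 6 * (ψv d * lo (t * d) (DN (t * u * m) b)) := by
    intro d hd
    rw [Finset.mem_filter, Nat.mem_divisors] at hd
    obtain ⟨⟨hdA, -⟩, h4⟩ := hd
    have e : d * (m / d) = m := Nat.mul_div_cancel' (hdA.trans h.hAm)
    have hmd : 0 < m / d := Nat.pos_of_ne_zero (by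
      intro h0
      rw [h0, mul_zero] at e
      have := h.hm
      omega)
    rw [SS_lo (N := t * u * m) (B := B) (gp h hPC hR ht h3 hdA h4 hN hq) (by
        calc t * d * (u * (m / d)) = t * u * (d * (m / d)) := by ring
          _ = t * u * m := by rw [e]) (Nat.mul_pos hu hmd) (by rw [hN]; exact nsq17 hq) hB,
      Finset.mul_sum, Finset.mul_sum]
    refine Finset.sum_congr rfl fun b _ => ?_
    ring
  rw [Finset.sum_congr rfl key, Finset.sum_comm, Finset.mul_sum]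
  refine Finset.sum_congr rfl fun b _ => ?_
  rw [← Finset.mul_sum]
  congr 1
  rw [sum_div_filter h.hs (fun d => d % 4 = rt t)]
  unfold FL
  refine Finset.sum_congr rfl fun S hS => ?_
  obtain ⟨a1, -⟩ := Finset.mem_filter.1 hS
  rw [hψ S (Finset.mem_powerset.1 a1)]

theorem FL_zero (P : Finset ℕ) (t : ℕ) (ψ : ℕ → ℤ) : FL P t 0 ψ = 0 := by
  unfold FL
  exact Finset.sum_eq_zero fun S _ => by rw [lo_zero, mul_zero]

theorem FL_odd (P : Finset ℕ) (t : ℕ) {D : ℕ} (hD : D % 2 = 1) (ψ : ℕ → ℤ) : FL P t D ψ = 0 := by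
  unfold FL lo
  have h : D.factorization 2 = 0 := Nat.factorization_eq_zero_of_not_dvd (by omega)
  refine Finset.sum_eq_zero fun S _ => ?_
  rw [WZ_small _ _ (by omega)]
  simp

/-- the valuations -/
def VN (P : Finset ℕ) (N : ℕ) : Prop := N ≠ 0 ∧ ∀ l ∈ P, N.factorization l = 1

theorem PD_of {P : Finset ℕ} {N : ℕ} (hP : OP P) (hN : VN P N) {b : ℤ} (h : DN N b ≠ 0) :
    PD P (DN N b) where
  hP := hP
  hv := fun l hl hlD => val1 (hP l hl).1 hN.1 (hN.2 l hl) h (DN_eq h) hlD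
  hD := h

/-- one family at a given inner product -/
theorem F1 {P : Finset ℕ} {N t : ℕ} (hP : OP P) (hN : VN P N) (b : ℤ) (ht : t = 1 ∨ t = 17)
    {ψ : ℕ → ℤ} (hψ : ∀ p ∈ P, Sgn (ψ p)) : (2 : ℤ) ^ P.card ∣ 2 * FL P t (DN N b) ψ := by
  by_cases h : DN N b = 0
  · rw [h, FL_zero, mul_zero]; exact dvd_zero _
  · exact FL1 (PD_of hP hN h) ht hψ

theorem F11 {P : Finset ℕ} {N : ℕ} (hP : OP P) (hN : VN P N) (b : ℤ)
    {ψ : ℕ → ℤ} (hψ : ∀ p ∈ P, Sgn (ψ p)) :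
    (2 : ℤ) ^ P.card ∣ FL P 1 (DN N b) ψ + FL P 17 (DN N b) ψ := by
  by_cases h : DN N b = 0
  · rw [h, FL_zero, FL_zero, add_zero]; exact dvd_zero _
  · exact FL11 (PD_of hP hN h) hψ

theorem RB_dvd {P : Finset ℕ} {E : ℕ} (h : PD P E) (hP3 : 3 ∉ P) : (2 : ℤ) ^ P.card ∣ RB P E := by
  unfold RB
  have h1 := h.three (t := 1) (Or.inl rfl)
  split_ifs
  · exact dvd_add (dvd_add (YY_dvd h1 one_sgn)
      (YY_dvd h1 fun p hp => (one_sgn p hp).mul (x4_sgn p)))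
      (dvd_add (YY_dvd h1 fun p hp => y3_sgn h.hP hP3 hp)
      (YY_dvd h1 fun p hp => (y3_sgn h.hP hP3 hp).mul (x4_sgn p)))
  · exact dvd_zero _

/-- the two cases of the inner product -/
theorem cases3 {N : ℕ} (b : ℤ) (h : DN (9 * N) b ≠ 0) :
    (¬ (3 : ℤ) ∣ b ∧ ¬ 3 ∣ DN (9 * N) b) ∨ ∃ c, b = 3 * c ∧ DN N c ≠ 0 := by
  by_cases hb : (3 : ℤ) ∣ b
  · right
    obtain ⟨c, rfl⟩ := hb
    refine ⟨c, rfl, fun h' => h ?_⟩
    rw [DN_nine, h', mul_zero]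
  · left
    refine ⟨hb, fun h3 => hb ?_⟩
    have hD := DN_eq h
    have h4 : (3 : ℤ) ∣ (DN (9 * N) b : ℤ) := by exact_mod_cast h3
    rw [hD] at h4
    have h5 : (3 : ℤ) ∣ b ^ 2 := by push_cast at h4; omega
    exact Int.prime_three.dvd_of_dvd_pow h5

/-- one family `t = 3` at a given inner product -/
theorem F3 {P : Finset ℕ} {N t : ℕ} (hP : OP P) (hP3 : 3 ∉ P) (hN : VN P N) (hN9 : VN P (9 * N))
    (b : ℤ) (ht : t = 3 ∨ t = 51) :
    (2 : ℤ) ^ P.card ∣ 2 * FL P t (DN (9 * N) b) (fun _ => 1) := by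
  by_cases h : DN (9 * N) b = 0
  · rw [h, FL_zero, mul_zero]; exact dvd_zero _
  have ht' : T17 t := by rcases ht with rfl | rfl <;> simp [T17]
  rcases cases3 b h with ⟨h1, h2⟩ | ⟨c, rfl, h2⟩
  · obtain ⟨a1, a2⟩ := famA (PD_of hP hN9 h) ht' h2
    have e : 2 * FL P t (DN (9 * N) b) (fun _ => 1) =
      (2 * FL P t (DN (9 * N) b) (fun _ => 1) - RA P (DN (9 * N) b)) + RA P (DN (9 * N) b) := by ring
    rw [e]
    exact dvd_add ((pow_dvd_pow 2 (Nat.le_succ _)).trans a1) a2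
  · rw [DN_nine]
    have h3 := PD_of hP hN h2
    have a1 := famB h3 hP3 ht
    have a2 := RB_dvd h3 hP3
    have e : 2 * FL P t (9 * DN N c) (fun _ => 1) =
      (2 * FL P t (9 * DN N c) (fun _ => 1) - RB P (DN N c)) + RB P (DN N c) := by ring
    rw [e]
    exact dvd_add ((pow_dvd_pow 2 (Nat.le_succ _)).trans a1) a2

/-- the complementary divisor -/
theorem compl {m : ℕ} (h4 : m % 4 = 1) (r : ℕ) (hr : r = 1 ∨ r = 3) (f : ℕ → ℕ → ℤ) :
    ∑ d ∈ m.divisors.filter (fun d => d % 4 = r), f d (m / d) =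
      ∑ d ∈ m.divisors.filter (fun d => d % 4 = r), f (m / d) d := by
  have hm0 : m ≠ 0 := by omega
  have hmem : ∀ d ∈ m.divisors.filter (fun d => d % 4 = r),
      m / d ∈ m.divisors.filter (fun d => d % 4 = r) := by
    intro d hd
    rw [Finset.mem_filter, Nat.mem_divisors] at hd ⊢
    obtain ⟨⟨hdn, hn0⟩, hd4⟩ := hd
    refine ⟨⟨Nat.div_dvd_of_dvd hdn, hn0⟩, ?_⟩
    have e1 : d * (m / d) = m := Nat.mul_div_cancel' hdn
    have e2 : (d % 4) * (m / d % 4) % 4 = 1 := by rw [← Nat.mul_mod, e1, h4]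
    rcases hr with rfl | rfl <;> rw [hd4] at e2 <;> omega
  have hinv : ∀ d ∈ m.divisors.filter (fun d => d % 4 = r), m / (m / d) = d := by
    intro d hd
    rw [Finset.mem_filter, Nat.mem_divisors] at hd
    exact Nat.div_div_self hd.1.1 hd.1.2
  refine Finset.sum_nbij' (fun d => m / d) (fun d => m / d) hmem hmem hinv hinv ?_
  intro d hd
  rw [hinv d hd]

theorem AD_C1 {n0 : ℕ} (h : C1 n0) : AD n0 n0 :=
  ⟨h.1, by have := h.2.1; omega, h.2.2, dvd_rfl, Nat.pos_of_ne_zero h.1.ne_zero⟩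

theorem VN_of {A m c : ℕ} (h : AD A m) (hc : ∀ l : ℕ, l.Prime → l ∣ A → ¬ l ∣ c) (hc0 : c ≠ 0)
    (hm : ∀ l ∈ A.primeFactors, m.factorization l = 1) : VN A.primeFactors (c * m) :=
  ⟨Nat.mul_ne_zero hc0 h.hm.ne', fun l hl => val_mul
    (hc l (Nat.prime_of_mem_primeFactors hl) (Nat.dvd_of_mem_primeFactors hl)) hc0 h.hm.ne' (hm l hl)⟩

theorem sq_val {A l : ℕ} (hs : Squarefree A) (hl : l ∈ A.primeFactors) : A.factorization l = 1 := by
  have h1 : 1 ≤ A.factorization l := ((Nat.prime_of_mem_primeFactors hl).dvd_iff_one_le_factorization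
    hs.ne_zero).1 (Nat.dvd_of_mem_primeFactors hl)
  have h2 : A.factorization l ≤ 1 := hs.natFactorization_le_one l
  omega

/-- the primes of `17 · 3^a · 2^b` -/
theorem nd_c {l c : ℕ} (hl : l.Prime) (h2 : l ≠ 2) (h3 : l ≠ 3) (h17 : l ≠ 17)
    (hc : ∃ i j k : ℕ, c = 2 ^ i * 3 ^ j * 17 ^ k) : ¬ l ∣ c := by
  obtain ⟨i, j, k, rfl⟩ := hc
  intro h
  rcases (Nat.Prime.dvd_mul hl).1 h with h | h
  · rcases (Nat.Prime.dvd_mul hl).1 h with h | h
    · exact h2 ((Nat.prime_dvd_prime_iff_eq hl Nat.prime_two).1 (hl.dvd_of_dvd_pow h))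
    · exact h3 ((Nat.prime_dvd_prime_iff_eq hl Nat.prime_three).1 (hl.dvd_of_dvd_pow h))
  · exact h17 ((Nat.prime_dvd_prime_iff_eq hl (by norm_num)).1 (hl.dvd_of_dvd_pow h))

theorem one_val (S : Finset ℕ) : ∏ p ∈ S, (fun _ => 1 : ℕ → ℤ) p = (fun _ => 1 : ℕ → ℤ) (pr S) := by
  simp

/-- **U1R** -/
theorem t_U1R (hPC : S_PC) : S_U1R := by
  intro n0 h
  have hA := AD_C1 h
  have hP := hA.OP
  have e0 := compl h.2.1 3 (Or.inr rfl) (fun d e => SS (17 * d : ℕ) (e : ℕ))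
  have e1 : ∑ d ∈ n0.divisors.filter (fun d => d % 4 = 3), SS (17 * d : ℕ) (n0 / d : ℕ) =
      ∑ d ∈ n0.divisors.filter (fun d => d % 4 = rt 1), (fun _ => 1 : ℕ → ℤ) d *
        SS (1 * d : ℕ) (17 * (n0 / d) : ℕ) := by
    refine e0.trans (Finset.sum_congr rfl fun d _ => ?_)
    rw [SS_symm, one_mul, one_mul]
  rw [e1, PS hA hPC (fun h => absurd h (by norm_num)) (Or.inl rfl)
    (fun h => by rcases h with h | h <;> omega) (by norm_num) (q := n0) (by ring) h.2.2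
    (B := 5 * n0) (by nlinarith [hA.hm]) (fun S _ => one_val S)]
  have hB : 0 < 5 * n0 := by have := hA.hm; omega
  rw [sum_symm' hB (fun b => FL n0.primeFactors 1 (DN (1 * 17 * n0) b) (fun _ => 1))
    (fun b => by rw [DN_neg])]
  rw [DN_zero, FL_odd _ _ (by have := h.2.1; omega), add_zero]
  have hN : VN n0.primeFactors (1 * 17 * n0) := VN_of hA (fun l hl hlA h' => by
    rw [one_mul] at h'
    have := (Nat.prime_dvd_prime_iff_eq hl (by norm_num)).1 h'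
    subst this
    exact hA.nd hlA) (by norm_num) (fun l hl => sq_val h.1 hl)
  have hdiv : (2 : ℤ) ^ n0.primeFactors.card ∣ 2 * ∑ b ∈ Ioo (0 : ℤ) ((5 * n0 : ℕ) : ℤ),
      FL n0.primeFactors 1 (DN (1 * 17 * n0) b) (fun _ => 1) := by
    rw [Finset.mul_sum]
    exact Finset.dvd_sum fun b _ => F1 hP hN b (Or.inl rfl) one_sgn
  obtain ⟨c, hc⟩ := hdiv
  rw [hc]
  exact ⟨3 * c, by rw [pow_succ]; ring⟩

/-- **U3R** -/
theorem t_U3R (hPC : S_PC) : S_U3R := by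
  intro n0 h _ h3
  have hA := AD_C1 h
  have hP := hA.OP
  have hP3 : 3 ∉ n0.primeFactors := fun h' => h3 (Nat.dvd_of_mem_primeFactors h')
  have e0 := compl h.2.1 1 (Or.inl rfl) (fun d e => SS (51 * d : ℕ) (3 * e : ℕ))
  have e1 : ∑ d ∈ n0.divisors.filter (fun d => d % 4 = 1), SS (51 * d : ℕ) (3 * (n0 / d) : ℕ) =
      ∑ d ∈ n0.divisors.filter (fun d => d % 4 = rt 3), (fun _ => 1 : ℕ → ℤ) d *
        SS (3 * d : ℕ) (51 * (n0 / d) : ℕ) := by
    refine e0.trans (Finset.sum_congr rfl fun d _ => ?_)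
    rw [SS_symm, one_mul]
  rw [e1, PS hA hPC (fun h => absurd h (by norm_num)) (Or.inr (Or.inr (Or.inl rfl)))
    (fun _ => h3) (by norm_num) (q := 9 * n0) (by ring) (by have := h.2.2; omega)
    (B := 13 * n0) (by nlinarith [hA.hm]) (fun S _ => one_val S)]
  have hB : 0 < 13 * n0 := by have := hA.hm; omega
  rw [sum_symm' hB (fun b => FL n0.primeFactors 3 (DN (3 * 51 * n0) b) (fun _ => 1))
    (fun b => by rw [DN_neg])]
  rw [DN_zero, FL_odd _ _ (by have := h.2.1; omega), add_zero]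
  have hc : ∀ l : ℕ, l.Prime → l ∣ n0 → l ≠ 2 ∧ l ≠ 3 ∧ l ≠ 17 := by
    intro l hl hlA
    refine ⟨?_, ?_, ?_⟩
    · rintro rfl; have := h.2.1; omega
    · rintro rfl; exact h3 hlA
    · rintro rfl; exact hA.nd hlA
  have hN : VN n0.primeFactors (17 * n0) := VN_of hA (fun l hl hlA =>
    nd_c hl (hc l hl hlA).1 (hc l hl hlA).2.1 (hc l hl hlA).2.2 ⟨0, 0, 1, by norm_num⟩)
    (by norm_num) (fun l hl => sq_val h.1 hl)
  have hN9 : VN n0.primeFactors (9 * (17 * n0)) := by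
    rw [show 9 * (17 * n0) = 153 * n0 by ring]
    exact VN_of hA (fun l hl hlA =>
      nd_c hl (hc l hl hlA).1 (hc l hl hlA).2.1 (hc l hl hlA).2.2 ⟨0, 2, 1, by norm_num⟩)
      (by norm_num) (fun l hl => sq_val h.1 hl)
  have hdiv : (2 : ℤ) ^ n0.primeFactors.card ∣ 2 * ∑ b ∈ Ioo (0 : ℤ) ((13 * n0 : ℕ) : ℤ),
      FL n0.primeFactors 3 (DN (3 * 51 * n0) b) (fun _ => 1) := by
    rw [Finset.mul_sum]
    refine Finset.dvd_sum fun b _ => ?_
    rw [show 3 * 51 * n0 = 9 * (17 * n0) by ring]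
    exact F3 hP hP3 hN hN9 b (Or.inl rfl)
  obtain ⟨c, hc⟩ := hdiv
  rw [hc]
  exact ⟨3 * c, by rw [pow_succ]; ring⟩

end Pool.Agent.N218.P17
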