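import Pool.Agent.N218.P17.U

/-!
# P17: the divisibilities in the ramified case, continued
-/

set_option autoImplicit false

namespace Pool.Agent.N218.P17

open Finset
open Pool.Agent.N969.P15 (tw V3)
open Pool.Agent.Z700 (hh fac)
open Pool.Agent.N218.P15 (Sgn GS FF abs1 x4 x4_sgn x8 pr jac_pr jac_sgn ee sum_symm' val1 val_mul
  pr_dvd quo_eq sum_div_filter card_cop)
open Pool.Agent.N972.P17
open Pool.Agent.N871.P17 (SS_sum SS_symm rr_mul)

theorem cgam (k : ℕ) {m d : ℕ} (hd : d ∣ m) (h3 : ¬ 3 ∣ m) :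
    jacobiSym (-((k * (m / d) : ℕ) : ℤ)) 3 = jacobiSym (-((k * m : ℕ) : ℤ)) 3 * y3 d := by
  have h3d : ¬ 3 ∣ d := fun h => h3 (h.trans hd)
  have hs : Sgn (y3 d) := by
    unfold y3
    apply jac_sgn Nat.prime_three
    intro h
    exact h3d (by exact_mod_cast h)
  have e : d * (m / d) = m := Nat.mul_div_cancel' hd
  have e1 : (-((k * m : ℕ) : ℤ)) = -((k * (m / d) : ℕ) : ℤ) * (d : ℤ) := by
    have : k * m = k * (m / d) * d := by rw [mul_assoc, mul_comm (m / d) d, e]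
    rw [this]
    push_cast
    ring
  rw [e1, jacobiSym.mul_left]
  have : y3 d * y3 d = 1 := by rcases hs with h | h <;> rw [h] <;> norm_num
  unfold y3 at this ⊢
  rw [mul_assoc, this, mul_one]

theorem gam_sgn {n : ℕ} (h : ¬ 3 ∣ n) : Sgn (jacobiSym (-(n : ℤ)) 3) := by
  apply jac_sgn Nat.prime_three
  rw [dvd_neg]
  intro h'
  exact h (by exact_mod_cast h')

/-- the product of the class numbers -/
theorem rr_prod (hHE : S_HE3A) {k m d : ℕ} (a : ℤ) (hd : d ∣ m) (h3 : ¬ 3 ∣ m) (hk3 : ¬ 3 ∣ k)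
    (hk : (k * (m / d)) % 4 = 0 ∨ (k * (m / d)) % 4 = 3) :
    rr a * rr (k * (m / d) : ℕ) = SS a (9 * k * (m / d) : ℕ) +
      jacobiSym (-((k * m : ℕ) : ℤ)) 3 * (y3 d * SS a (k * (m / d) : ℕ)) := by
  have h3' : ¬ 3 ∣ k * (m / d) := by
    intro h
    rcases (Nat.Prime.dvd_mul Nat.prime_three).1 h with h | h
    · exact hk3 h
    · exact h3 (h.trans (Nat.div_dvd_of_dvd hd))
  obtain ⟨g1, g2⟩ := hHE (k * (m / d)) hk h3'
  have h := rr_mul (a := a) (b := ((k * (m / d) : ℕ) : ℤ)) g1 g2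
  rw [cgam k hd h3] at h
  have e : (9 : ℤ) * ((k * (m / d) : ℕ) : ℤ) = ((9 * k * (m / d) : ℕ) : ℤ) := by push_cast; ring
  rw [e] at h
  rw [h]
  ring

theorem y3_val (S : Finset ℕ) : ∏ p ∈ S, y3 p = y3 (pr S) := y3_pr S

/-- **VR** -/
theorem t_VR (hPC : S_PC) (hHE : S_HE3A) : S_VR := by
  intro n0 h h3
  have hA := AD_C1 h
  have hP := hA.OP
  have hP3 : 3 ∉ n0.primeFactors := fun h' => h3 (Nat.dvd_of_mem_primeFactors h')
  set γ := jacobiSym (-((17 * n0 : ℕ) : ℤ)) 3 with hγ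
  have e0 := compl h.2.1 3 (Or.inr rfl) (fun d e => rr (17 * d : ℕ) * rr (e : ℕ))
  have e1 : ∑ d ∈ n0.divisors.filter (fun d => d % 4 = 3), rr (17 * d : ℕ) * rr (n0 / d : ℕ) =
      ∑ d ∈ n0.divisors.filter (fun d => d % 4 = rt 1), (fun _ => 1 : ℕ → ℤ) d *
        SS (1 * d : ℕ) (153 * (n0 / d) : ℕ) +
      γ * ∑ d ∈ n0.divisors.filter (fun d => d % 4 = rt 1), y3 d *
        SS (1 * d : ℕ) (17 * (n0 / d) : ℕ) := by
    refine e0.trans ?_
    rw [Finset.mul_sum, ← Finset.sum_add_distrib]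
    refine Finset.sum_congr rfl fun d hd => ?_
    rw [Finset.mem_filter, Nat.mem_divisors] at hd
    obtain ⟨⟨hdn, -⟩, hd4⟩ := hd
    have e4 : d * (n0 / d) = n0 := Nat.mul_div_cancel' hdn
    have e5 : (d % 4) * (n0 / d % 4) % 4 = 1 := by rw [← Nat.mul_mod, e4, h.2.1]
    have hd4' : d % 4 = 3 := hd4
    rw [hd4'] at e5
    have := rr_prod hHE (k := 17) (m := n0) (d : ℤ) hdn h3 (by norm_num) (Or.inr (by omega))
    rw [mul_comm, this, one_mul, one_mul]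
  rw [e1, PS hA hPC (fun h => absurd h (by norm_num)) (Or.inl rfl)
    (fun h => by rcases h with h | h <;> omega) (by norm_num) (q := 9 * n0) (by ring)
    (by have := h.2.2; omega)
    (B := 13 * n0) (by nlinarith [hA.hm]) (fun S _ => one_val S),
    PS hA hPC (fun h => absurd h (by norm_num)) (Or.inl rfl)
    (fun h => by rcases h with h | h <;> omega) (by norm_num) (q := n0) (by ring) h.2.2
    (B := 5 * n0) (by nlinarith [hA.hm]) (fun S _ => y3_val S)]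
  have hB : 0 < 5 * n0 := by have := hA.hm; omega
  have hB' : 0 < 13 * n0 := by have := hA.hm; omega
  rw [sum_symm' hB (fun b => FL n0.primeFactors 1 (DN (1 * 17 * n0) b) y3)
    (fun b => by rw [DN_neg]),
    sum_symm' hB' (fun b => FL n0.primeFactors 1 (DN (1 * 153 * n0) b) (fun _ => 1))
    (fun b => by rw [DN_neg])]
  rw [DN_zero, DN_zero, FL_odd _ _ (by have := h.2.1; omega), FL_odd _ _ (by have := h.2.1; omega),
    add_zero, add_zero]
  have hc : ∀ l : ℕ, l.Prime → l ∣ n0 → l ≠ 2 ∧ l ≠ 3 ∧ l ≠ 17 := by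
    intro l hl hlA
    refine ⟨?_, ?_, ?_⟩
    · rintro rfl; have := h.2.1; omega
    · rintro rfl; exact h3 hlA
    · rintro rfl; exact hA.nd hlA
  have hN : VN n0.primeFactors (1 * 17 * n0) := VN_of hA (fun l hl hlA =>
    nd_c hl (hc l hl hlA).1 (hc l hl hlA).2.1 (hc l hl hlA).2.2 ⟨0, 0, 1, by norm_num⟩)
    (by norm_num) (fun l hl => sq_val h.1 hl)
  have hN9 : VN n0.primeFactors (1 * 153 * n0) := VN_of hA (fun l hl hlA =>
      nd_c hl (hc l hl hlA).1 (hc l hl hlA).2.1 (hc l hl hlA).2.2 ⟨0, 2, 1, by norm_num⟩)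
      (by norm_num) (fun l hl => sq_val h.1 hl)
  have hdiv1 : (2 : ℤ) ^ n0.primeFactors.card ∣ 2 * ∑ b ∈ Ioo (0 : ℤ) ((13 * n0 : ℕ) : ℤ),
      FL n0.primeFactors 1 (DN (1 * 153 * n0) b) (fun _ => 1) := by
    rw [Finset.mul_sum]
    exact Finset.dvd_sum fun b _ => F1 hP hN9 b (Or.inl rfl) one_sgn
  have hdiv2 : (2 : ℤ) ^ n0.primeFactors.card ∣ 2 * ∑ b ∈ Ioo (0 : ℤ) ((5 * n0 : ℕ) : ℤ),
      FL n0.primeFactors 1 (DN (1 * 17 * n0) b) y3 := by
    rw [Finset.mul_sum]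
    exact Finset.dvd_sum fun b _ => F1 hP hN b (Or.inl rfl) fun p hp => y3_sgn hP hP3 hp
  obtain ⟨c1, hc1⟩ := hdiv1
  obtain ⟨c2, hc2⟩ := hdiv2
  rw [hc1, hc2]
  exact ⟨3 * c1 + 3 * γ * c2, by rw [pow_succ]; ring⟩

/-! ### even discriminants -/

/-- the odd part -/
theorem odd_part {M : ℕ} (hs : Squarefree M) (h4 : M % 4 = 2 ∨ M % 4 = 3) (h17 : ¬ 17 ∣ M) :
    ∃ A, AD A M ∧ (4 * M).primeFactors.card = A.primeFactors.card + 1 ∧
      (∀ r, r = 1 ∨ r = 3 → M.divisors.filter (fun d => d % 4 = r) =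
        A.divisors.filter (fun d => d % 4 = r)) := by
  have hM0 : M ≠ 0 := hs.ne_zero
  obtain ⟨A, hA2, hM⟩ : ∃ A, A % 2 = 1 ∧ (M = A ∨ M = 2 * A) := by
    rcases h4 with h | h
    · refine ⟨M / 2, ?_, Or.inr (by omega)⟩
      omega
    · exact ⟨M, by omega, Or.inl rfl⟩
  have hAM : A ∣ M := by
    rcases hM with h | h
    · exact ⟨1, by rw [h, mul_one]⟩
    · exact ⟨2, by rw [h]; ring⟩
  refine ⟨A, ⟨hs.squarefree_of_dvd hAM, hA2, h17, hAM, Nat.pos_of_ne_zero hM0⟩, ?_, ?_⟩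
  · obtain ⟨k, hk, hk0⟩ : ∃ k : ℕ, 4 * M = 2 ^ k * A ∧ k ≠ 0 := by
      rcases hM with h | h
      · exact ⟨2, by rw [← h]; ring, by norm_num⟩
      · exact ⟨3, by rw [h]; ring, by norm_num⟩
    have hcop : Nat.Coprime (2 ^ k) A := by
      apply Nat.Coprime.pow_left
      exact (Nat.coprime_two_left).2 (Nat.odd_iff.2 hA2)
    rw [hk, card_cop hcop (by positivity) (by omega), Nat.primeFactors_prime_pow hk0 Nat.prime_two,
      Finset.card_singleton, add_comm]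
  · intro r hr
    ext d
    simp only [Finset.mem_filter, Nat.mem_divisors]
    constructor
    · rintro ⟨⟨h1, -⟩, h3⟩
      refine ⟨⟨?_, by omega⟩, h3⟩
      rcases hM with h | h
      · rwa [← h]
      · rw [h] at h1
        have hc : Nat.Coprime d 2 := (Nat.coprime_two_right).2 (Nat.odd_iff.2 (by omega))
        exact hc.dvd_of_dvd_mul_left h1
    · rintro ⟨⟨h1, -⟩, h3⟩
      exact ⟨⟨h1.trans hAM, hM0⟩, h3⟩

/-- the inner product zero, `t = 1, 17` -/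
theorem FL0 {P : Finset ℕ} {N t : ℕ} (hP : OP P) (hN : VN P N) (h17 : 17 ∉ P)
    (ht : t = 1 ∨ t = 17) (ψ : ℕ → ℤ) : (2 : ℤ) ^ P.card ∣ FL P t N ψ := by
  have hpd : PD P N := ⟨hP, fun l hl _ => hN.2 l hl, hN.1⟩
  unfold FL
  refine Finset.dvd_sum fun S hS => Dvd.dvd.mul_left ?_ _
  obtain ⟨a1, -⟩ := Finset.mem_filter.1 hS
  unfold lo
  split_ifs
  · refine WZ0 (hpd.one ht) (Finset.mem_powerset.1 a1) fun l hl => ?_
    refine ⟨Nat.dvd_of_factorization_pos (by rw [hN.2 l hl]; norm_num), ?_⟩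
    simp only [Z1, Finset.mem_insert, Finset.mem_singleton, not_or]
    exact ⟨(hP l hl).2, fun h => h17 (h ▸ hl)⟩
  · exact dvd_zero _

theorem AD.n17 {A m : ℕ} (h : AD A m) : 17 ∉ A.primeFactors := fun h' =>
  h.nd (Nat.dvd_of_mem_primeFactors h')

theorem AD.valm {A m : ℕ} (h : AD A m) (hs : Squarefree m) :
    ∀ l ∈ A.primeFactors, m.factorization l = 1 := by
  intro l hl
  refine sq_val hs ?_
  rw [Nat.mem_primeFactors]
  exact ⟨Nat.prime_of_mem_primeFactors hl, (Nat.dvd_of_mem_primeFactors hl).trans h.hAm, h.hm.ne'⟩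

theorem nd68 {l c : ℕ} (hl : l.Prime) (h2 : l ≠ 2) (h17 : l ≠ 17)
    (hc : ∃ i k : ℕ, c = 2 ^ i * 17 ^ k) : ¬ l ∣ c := by
  obtain ⟨i, k, rfl⟩ := hc
  intro h
  rcases (Nat.Prime.dvd_mul hl).1 h with h | h
  · exact h2 ((Nat.prime_dvd_prime_iff_eq hl Nat.prime_two).1 (hl.dvd_of_dvd_pow h))
  · exact h17 ((Nat.prime_dvd_prime_iff_eq hl (by norm_num)).1 (hl.dvd_of_dvd_pow h))

/-- **U1RE** -/
theorem t_U1RE (hPC : S_PC) (hPR : S_PCR') : S_U1RE := by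
  intro M h
  obtain ⟨hs, h4, h17⟩ := h
  obtain ⟨A, hA, hcard, hfil⟩ := odd_part hs h4 h17
  have hP := hA.OP
  have e1 : ∑ d ∈ M.divisors.filter (fun d => d % 4 = 3),
      (SS (17 * d : ℕ) (4 * (M / d) : ℕ) + SS (68 * (M / d) : ℕ) (d : ℕ)) =
      ∑ d ∈ A.divisors.filter (fun d => d % 4 = rt 17), (fun _ => 1 : ℕ → ℤ) d *
        SS (17 * d : ℕ) (4 * (M / d) : ℕ) +
      ∑ d ∈ A.divisors.filter (fun d => d % 4 = rt 1), (fun _ => 1 : ℕ → ℤ) d *
        SS (1 * d : ℕ) (68 * (M / d) : ℕ) := by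
    rw [hfil 3 (Or.inr rfl), Finset.sum_add_distrib]
    congr 1
    · refine Finset.sum_congr rfl fun d _ => ?_
      rw [one_mul]
    · refine Finset.sum_congr rfl fun d _ => ?_
      rw [one_mul, one_mul, SS_symm]
  rw [e1, PS hA hPC (fun _ => hPR) (Or.inr (Or.inl rfl))
    (fun h => by rcases h with h | h <;> omega) (by norm_num) (q := 4 * M) (by ring) (by omega)
    (B := 9 * M) (by nlinarith [hA.hm]) (fun S _ => one_val S),
    PS hA hPC (fun _ => hPR) (Or.inl rfl)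
    (fun h => by rcases h with h | h <;> omega) (by norm_num) (q := 4 * M) (by ring) (by omega)
    (B := 9 * M) (by nlinarith [hA.hm]) (fun S _ => one_val S)]
  rw [show 17 * 4 * M = 68 * M by ring, show 1 * 68 * M = 68 * M by ring]
  have hB : 0 < 9 * M := by have := hA.hm; omega
  rw [sum_symm' hB (fun b => FL A.primeFactors 17 (DN (68 * M) b) (fun _ => 1))
    (fun b => by rw [DN_neg]),
    sum_symm' hB (fun b => FL A.primeFactors 1 (DN (68 * M) b) (fun _ => 1))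
    (fun b => by rw [DN_neg])]
  rw [DN_zero]
  have hN : VN A.primeFactors (68 * M) := VN_of hA (fun l hl hlA => nd68 hl (by
    rintro rfl; have := hA.h2; omega) (by rintro rfl; exact hA.nd hlA) ⟨2, 1, by norm_num⟩)
    (by norm_num) (hA.valm hs)
  have hdiv : (2 : ℤ) ^ A.primeFactors.card ∣ ∑ b ∈ Ioo (0 : ℤ) ((9 * M : ℕ) : ℤ),
      (FL A.primeFactors 1 (DN (68 * M) b) (fun _ => 1) +
        FL A.primeFactors 17 (DN (68 * M) b) (fun _ => 1)) :=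
    Finset.dvd_sum fun b _ => F11 hP hN b one_sgn
  rw [Finset.sum_add_distrib] at hdiv
  obtain ⟨c, hc⟩ := hdiv
  obtain ⟨c1, hc1⟩ := FL0 hP hN hA.n17 (Or.inl rfl) (fun _ => 1)
  obtain ⟨c2, hc2⟩ := FL0 hP hN hA.n17 (Or.inr rfl) (fun _ => 1)
  rw [hcard, hc1, hc2]
  refine ⟨6 * c + 3 * c1 + 3 * c2, ?_⟩
  rw [pow_succ]
  linear_combination 12 * hc

/-- the range in two parts -/
theorem thirds (B : ℕ) (f : ℤ → ℤ) : ∑ b ∈ Ioo (-((3 * B : ℕ) : ℤ)) ((3 * B : ℕ) : ℤ), f b =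
    ∑ b ∈ Ioo (-((3 * B : ℕ) : ℤ)) ((3 * B : ℕ) : ℤ), (if (3 : ℤ) ∣ b then 0 else f b) +
      ∑ c ∈ Ioo (-(B : ℤ)) B, f (3 * c) := by
  have h := Pool.Agent.N871.P17.sum_third B (fun c => f (3 * c))
  rw [h, ← Finset.sum_add_distrib]
  refine Finset.sum_congr rfl fun b _ => ?_
  by_cases hb : (3 : ℤ) ∣ b
  · rw [if_pos hb, if_pos hb, zero_add]
    congr 1
    omega
  · rw [if_neg hb, if_neg hb, add_zero]

/-- the inner product zero, `t = 3, 51` -/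
theorem FLa {P : Finset ℕ} {E t : ℕ} (hP : OP P) (hP3 : 3 ∉ P) (h17 : 17 ∉ P) (hN : VN P E)
    (h3 : ¬ 3 ∣ E) (ht : t = 3 ∨ t = 51) :
    (2 : ℤ) ^ (P.card + 1) ∣ FL P t (9 * E) (fun _ => 1) := by
  have ht' : T17 t := by rcases ht with rfl | rfl <;> simp [T17]
  have hpd : PD P E := ⟨hP, fun l hl _ => hN.2 l hl, hN.1⟩
  have h9E : 9 * E ≠ 0 := Nat.mul_ne_zero (by norm_num) hN.1
  obtain ⟨κ, hκ, hf⟩ := fac3_b (t := t) (D := 9 * E) (by rcases ht with rfl | rfl <;> norm_num)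
    (by rcases ht with rfl | rfl <;> norm_num) h9E
  unfold FL
  refine Finset.dvd_sum fun S hS => Dvd.dvd.mul_left ?_ _
  obtain ⟨a1, -⟩ := Finset.mem_filter.1 hS
  unfold lo
  split_ifs
  · rw [WZ_three h9E, if_pos ⟨3 * E, by ring⟩, hf P S hP hP3 (Finset.mem_powerset.1 a1),
      fact9_3 hN.1, Nat.factorization_eq_zero_of_not_dvd h3, if_pos (by decide), WZ9 _ hN.1,
      pow_succ, mul_comm ((2 : ℤ) ^ _) 2]
    refine mul_dvd_mul ?_ (WZ0 (hpd.three ht') (Finset.mem_powerset.1 a1) fun l hl => ?_)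
    · have := hκ.odd
      omega
    · refine ⟨Nat.dvd_of_factorization_pos (by rw [hN.2 l hl]; norm_num), ?_⟩
      simp only [Z3, Finset.mem_insert, Finset.mem_singleton, not_or]
      exact ⟨(hP l hl).2, fun h => hP3 (h ▸ hl), fun h => h17 (h ▸ hl)⟩
  · exact dvd_zero _

/-- the inner product zero, `t = 1, 17` -/
theorem FLb {P : Finset ℕ} {E t : ℕ} (hP : OP P) (hP3 : 3 ∉ P) (h17 : 17 ∉ P) (hN : VN P E)
    (h3 : ¬ 3 ∣ E) (ht : t = 1 ∨ t = 17) {γ : ℤ} (hγ : Sgn γ) :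
    (2 : ℤ) ^ (P.card + 1) ∣ FL P t (9 * E) (fun _ => 1) + γ * FL P t E y3 := by
  have ht' : T17 t := by rcases ht with rfl | rfl <;> simp [T17]
  have ht3 : ¬ 3 ∣ t := by rcases ht with rfl | rfl <;> norm_num
  have hpd : PD P E := ⟨hP, fun l hl _ => hN.2 l hl, hN.1⟩
  have h9E : 9 * E ≠ 0 := Nat.mul_ne_zero (by norm_num) hN.1
  have h17' : 17 ∣ 9 * E ↔ 17 ∣ E := by omega
  have hσs : Sgn (jacobiSym (-(t : ℤ)) 3) := gam_sgn ht3
  unfold FL
  rw [Finset.mul_sum, ← Finset.sum_add_distrib]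
  refine Finset.dvd_sum fun S hS => ?_
  obtain ⟨a1, -⟩ := Finset.mem_filter.1 hS
  have a3 := Finset.mem_powerset.1 a1
  unfold lo
  by_cases h : 17 ∣ E
  · have hy : Sgn (∏ p ∈ S, y3 p) := Sgn.prod fun p hp => y3_sgn hP hP3 (a3 hp)
    rw [if_pos (h17'.2 h), if_pos h, WZ_three h9E, WZ_three hN.1, if_neg h3,
      if_pos ⟨3 * E, by ring⟩, fac3_a hP hP3 a3 ht3, geo (hσs.mul hy), fact9_3 hN.1,
      Nat.factorization_eq_zero_of_not_dvd h3, WZ9 _ hN.1, Finset.prod_const_one]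
    have e : 1 * ((ae (0 + 2) + be (0 + 2) * (jacobiSym (-(t : ℤ)) 3 * ∏ p ∈ S, y3 p)) *
        WZ Z3 (t * pr S) E) + γ * ((∏ p ∈ S, y3 p) * (1 * WZ Z3 (t * pr S) E)) =
        (2 + jacobiSym (-(t : ℤ)) 3 * (∏ p ∈ S, y3 p) + γ * ∏ p ∈ S, y3 p) *
          WZ Z3 (t * pr S) E := by
      have : ae (0 + 2) = 2 := by norm_num [ae]
      have h' : be (0 + 2) = 1 := by norm_num [be]
      rw [this, h']
      ring
    rw [e, pow_succ, mul_comm ((2 : ℤ) ^ _) 2]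
    refine mul_dvd_mul ?_ (WZ0 (hpd.three ht') a3 fun l hl => ?_)
    · have h1 := (hσs.mul hy).odd
      have h2 := (hγ.mul hy).odd
      omega
    · refine ⟨Nat.dvd_of_factorization_pos (by rw [hN.2 l hl]; norm_num), ?_⟩
      simp only [Z3, Finset.mem_insert, Finset.mem_singleton, not_or]
      exact ⟨(hP l hl).2, fun h => hP3 (h ▸ hl), fun h => h17 (h ▸ hl)⟩
  · rw [if_neg (fun h' => h (h17'.1 h')), if_neg h]
    simp

theorem half {k : ℕ} {x : ℤ} (h : (2 : ℤ) ^ (k + 1) ∣ 2 * x) : (2 : ℤ) ^ k ∣ x := by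
  rw [pow_succ, mul_comm ((2 : ℤ) ^ _) 2] at h
  exact (mul_dvd_mul_iff_left (by norm_num : (2 : ℤ) ≠ 0)).1 h

/-- **U3RE** -/
theorem t_U3RE (hPC : S_PC) (hPR : S_PCR') (hHE : S_HE3A) : S_U3RE := by
  intro M h h3
  obtain ⟨hs, h4, h17⟩ := h
  obtain ⟨A, hA, hcard, hfil⟩ := odd_part hs h4 h17
  have hP := hA.OP
  have h3A : ¬ 3 ∣ A := fun h' => h3 (h'.trans hA.hAm)
  have hP3 : 3 ∉ A.primeFactors := fun h' => h3A (Nat.dvd_of_mem_primeFactors h')
  set P := A.primeFactors with hPd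
  set γ := jacobiSym (-((4 * M : ℕ) : ℤ)) 3 with hγ
  set γ' := jacobiSym (-((68 * M : ℕ) : ℤ)) 3 with hγ'
  have hγs : Sgn γ := gam_sgn (by omega)
  have hγs' : Sgn γ' := gam_sgn (by omega)
  have e1 : ∑ d ∈ M.divisors.filter (fun d => d % 4 = 1),
      (SS (51 * d : ℕ) (12 * (M / d) : ℕ) + SS (204 * (M / d) : ℕ) (3 * d : ℕ)) =
      ∑ d ∈ A.divisors.filter (fun d => d % 4 = rt 51), (fun _ => 1 : ℕ → ℤ) d *
        SS (51 * d : ℕ) (12 * (M / d) : ℕ) +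
      ∑ d ∈ A.divisors.filter (fun d => d % 4 = rt 3), (fun _ => 1 : ℕ → ℤ) d *
        SS (3 * d : ℕ) (204 * (M / d) : ℕ) := by
    rw [hfil 1 (Or.inl rfl), Finset.sum_add_distrib]
    congr 1
    · refine Finset.sum_congr rfl fun d _ => ?_
      rw [one_mul]
    · refine Finset.sum_congr rfl fun d _ => ?_
      rw [one_mul, SS_symm]
  have e2 : ∑ d ∈ M.divisors.filter (fun d => d % 4 = 3),
      (rr (17 * d : ℕ) * rr (4 * (M / d) : ℕ) + rr (68 * (M / d) : ℕ) * rr (d : ℕ)) =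
      (∑ d ∈ A.divisors.filter (fun d => d % 4 = rt 17), (fun _ => 1 : ℕ → ℤ) d *
        SS (17 * d : ℕ) (36 * (M / d) : ℕ) +
      γ * ∑ d ∈ A.divisors.filter (fun d => d % 4 = rt 17), y3 d *
        SS (17 * d : ℕ) (4 * (M / d) : ℕ)) +
      (∑ d ∈ A.divisors.filter (fun d => d % 4 = rt 1), (fun _ => 1 : ℕ → ℤ) d *
        SS (1 * d : ℕ) (612 * (M / d) : ℕ) +
      γ' * ∑ d ∈ A.divisors.filter (fun d => d % 4 = rt 1), y3 d *
        SS (1 * d : ℕ) (68 * (M / d) : ℕ)) := by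
    rw [hfil 3 (Or.inr rfl), Finset.sum_add_distrib]
    congr 1
    · rw [Finset.mul_sum, ← Finset.sum_add_distrib]
      refine Finset.sum_congr rfl fun d hd => ?_
      rw [Finset.mem_filter, Nat.mem_divisors] at hd
      rw [rr_prod hHE (k := 4) (m := M) _ (hd.1.1.trans hA.hAm) h3 (by norm_num)
        (Or.inl (by omega)), one_mul]
    · rw [Finset.mul_sum, ← Finset.sum_add_distrib]
      refine Finset.sum_congr rfl fun d hd => ?_
      rw [Finset.mem_filter, Nat.mem_divisors] at hd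
      rw [mul_comm, rr_prod hHE (k := 68) (m := M) _ (hd.1.1.trans hA.hAm) h3 (by norm_num)
        (Or.inl (by omega)), one_mul, one_mul]
  have hq : ¬ 17 ∣ 36 * M := by omega
  have hq' : ¬ 17 ∣ 4 * M := by omega
  have hB9 : 612 * M < (3 * (9 * M)) ^ 2 := by nlinarith [hA.hm]
  have hB1 : 68 * M < (9 * M) ^ 2 := by nlinarith [hA.hm]
  have s1 := PS hA hPC (fun _ => hPR) (ψ := fun _ => 1) (ψv := fun _ => 1) (t := 51) (u := 12) (Or.inr (Or.inr (Or.inr rfl)))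
    (fun _ => h3A) (by norm_num) (q := 36 * M) (by ring) hq (B := 3 * (9 * M))
    (by rw [show 51 * 12 * M = 612 * M by ring]; exact hB9) (fun S _ => one_val S)
  have s2 := PS hA hPC (fun _ => hPR) (ψ := fun _ => 1) (ψv := fun _ => 1) (t := 3) (u := 204) (Or.inr (Or.inr (Or.inl rfl)))
    (fun _ => h3A) (by norm_num) (q := 36 * M) (by ring) hq (B := 3 * (9 * M))
    (by rw [show 3 * 204 * M = 612 * M by ring]; exact hB9) (fun S _ => one_val S)
  have s3 := PS hA hPC (fun _ => hPR) (ψ := fun _ => 1) (ψv := fun _ => 1) (t := 17) (u := 36) (Or.inr (Or.inl rfl))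
    (fun _ => h3A) (by norm_num) (q := 36 * M) (by ring) hq (B := 3 * (9 * M))
    (by rw [show 17 * 36 * M = 612 * M by ring]; exact hB9) (fun S _ => one_val S)
  have s4 := PS hA hPC (fun _ => hPR) (ψ := fun _ => 1) (ψv := fun _ => 1) (t := 1) (u := 612) (Or.inl rfl)
    (fun _ => h3A) (by norm_num) (q := 36 * M) (by ring) hq (B := 3 * (9 * M))
    (by rw [show 1 * 612 * M = 612 * M by ring]; exact hB9) (fun S _ => one_val S)
  have s5 := PS hA hPC (fun _ => hPR) (ψ := y3) (ψv := y3) (t := 17) (u := 4) (Or.inr (Or.inl rfl))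
    (fun _ => h3A) (by norm_num) (q := 4 * M) (by ring) hq' (B := 9 * M)
    (by rw [show 17 * 4 * M = 68 * M by ring]; exact hB1) (fun S _ => y3_val S)
  have s6 := PS hA hPC (fun _ => hPR) (ψ := y3) (ψv := y3) (t := 1) (u := 68) (Or.inl rfl)
    (fun _ => h3A) (by norm_num) (q := 4 * M) (by ring) hq' (B := 9 * M)
    (by rw [show 1 * 68 * M = 68 * M by ring]; exact hB1) (fun S _ => y3_val S)
  rw [show 51 * 12 * M = 9 * (68 * M) by ring] at s1
  rw [show 3 * 204 * M = 9 * (68 * M) by ring] at s2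
  rw [show 17 * 36 * M = 9 * (68 * M) by ring] at s3
  rw [show 1 * 612 * M = 9 * (68 * M) by ring] at s4
  rw [show 17 * 4 * M = 68 * M by ring] at s5
  rw [show 1 * 68 * M = 68 * M by ring] at s6
  rw [e1, e2, s1, s2, s3, s4, s5, s6, hcard]
  set N := 68 * M with hNd
  set F : ℤ → ℤ := fun b => FL P 51 (DN (9 * N) b) (fun _ => 1) + FL P 3 (DN (9 * N) b) (fun _ => 1) -
    FL P 17 (DN (9 * N) b) (fun _ => 1) - FL P 1 (DN (9 * N) b) (fun _ => 1) with hF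
  set G : ℤ → ℤ := fun c => γ * FL P 17 (DN N c) y3 + γ' * FL P 1 (DN N c) y3 with hG
  have hB : 0 < 9 * M := by have := hA.hm; omega
  have tot : 6 * ∑ b ∈ Ioo (-((3 * (9 * M) : ℕ) : ℤ)) ((3 * (9 * M) : ℕ) : ℤ),
        FL P 51 (DN (9 * N) b) (fun _ => 1) +
      6 * ∑ b ∈ Ioo (-((3 * (9 * M) : ℕ) : ℤ)) ((3 * (9 * M) : ℕ) : ℤ),
        FL P 3 (DN (9 * N) b) (fun _ => 1) -
      (6 * ∑ b ∈ Ioo (-((3 * (9 * M) : ℕ) : ℤ)) ((3 * (9 * M) : ℕ) : ℤ),
        FL P 17 (DN (9 * N) b) (fun _ => 1) +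
        γ * (6 * ∑ b ∈ Ioo (-((9 * M : ℕ) : ℤ)) ((9 * M : ℕ) : ℤ), FL P 17 (DN N b) y3) +
      (6 * ∑ b ∈ Ioo (-((3 * (9 * M) : ℕ) : ℤ)) ((3 * (9 * M) : ℕ) : ℤ),
        FL P 1 (DN (9 * N) b) (fun _ => 1) +
        γ' * (6 * ∑ b ∈ Ioo (-((9 * M : ℕ) : ℤ)) ((9 * M : ℕ) : ℤ), FL P 1 (DN N b) y3))) =
      6 * (∑ b ∈ Ioo (-((3 * (9 * M) : ℕ) : ℤ)) ((3 * (9 * M) : ℕ) : ℤ),
        (if (3 : ℤ) ∣ b then 0 else F b) +
        ∑ c ∈ Ioo (-((9 * M : ℕ) : ℤ)) ((9 * M : ℕ) : ℤ), (F (3 * c) - G c)) := by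
    have t1 := thirds (9 * M) F
    rw [Finset.sum_sub_distrib]
    have t2 : ∑ b ∈ Ioo (-((3 * (9 * M) : ℕ) : ℤ)) ((3 * (9 * M) : ℕ) : ℤ), F b =
        ∑ b ∈ Ioo (-((3 * (9 * M) : ℕ) : ℤ)) ((3 * (9 * M) : ℕ) : ℤ),
          FL P 51 (DN (9 * N) b) (fun _ => 1) +
        ∑ b ∈ Ioo (-((3 * (9 * M) : ℕ) : ℤ)) ((3 * (9 * M) : ℕ) : ℤ),
          FL P 3 (DN (9 * N) b) (fun _ => 1) -
        ∑ b ∈ Ioo (-((3 * (9 * M) : ℕ) : ℤ)) ((3 * (9 * M) : ℕ) : ℤ),
          FL P 17 (DN (9 * N) b) (fun _ => 1) -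
        ∑ b ∈ Ioo (-((3 * (9 * M) : ℕ) : ℤ)) ((3 * (9 * M) : ℕ) : ℤ),
          FL P 1 (DN (9 * N) b) (fun _ => 1) := by
      rw [hF, Finset.sum_sub_distrib, Finset.sum_sub_distrib, Finset.sum_add_distrib]
    have t3 : ∑ c ∈ Ioo (-((9 * M : ℕ) : ℤ)) ((9 * M : ℕ) : ℤ), G c =
        γ * ∑ b ∈ Ioo (-((9 * M : ℕ) : ℤ)) ((9 * M : ℕ) : ℤ), FL P 17 (DN N b) y3 +
        γ' * ∑ b ∈ Ioo (-((9 * M : ℕ) : ℤ)) ((9 * M : ℕ) : ℤ), FL P 1 (DN N b) y3 := by
      rw [hG, Finset.sum_add_distrib, Finset.mul_sum, Finset.mul_sum]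
    rw [t1] at t2
    rw [t3]
    linear_combination (-6) * t2
  rw [tot]
  have hFn : ∀ b, F (-b) = F b := by
    intro b
    rw [hF]
    simp only [DN_neg]
  have hGn : ∀ b, G (-b) = G b := by
    intro b
    rw [hG]
    simp only [DN_neg]
  rw [sum_symm' (by omega : 0 < 3 * (9 * M)) (fun b => if (3 : ℤ) ∣ b then 0 else F b) (by
      intro b
      simp only [dvd_neg, hFn]),
    sum_symm' hB (fun c => F (3 * c) - G c) (by
      intro c
      show F (3 * -c) - G (-c) = F (3 * c) - G c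
      rw [hGn, show 3 * -c = -(3 * c) by ring, hFn])]
  have hN : VN P N := VN_of hA (fun l hl hlA => nd68 hl (by
    rintro rfl; have := hA.h2; omega) (by rintro rfl; exact hA.nd hlA) ⟨2, 1, by norm_num⟩)
    (by norm_num) (hA.valm hs)
  have hN9 : VN P (9 * N) := by
    rw [hNd, show 9 * (68 * M) = 612 * M by ring]
    exact VN_of hA (fun l hl hlA => nd_c hl (by
      rintro rfl; have := hA.h2; omega) (by rintro rfl; exact h3A hlA)
      (by rintro rfl; exact hA.nd hlA) ⟨2, 2, 1, by norm_num⟩)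
      (by norm_num) (hA.valm hs)
  -- the inner products prime to three
  have d1 : (2 : ℤ) ^ P.card ∣ ∑ b ∈ Ioo (0 : ℤ) ((3 * (9 * M) : ℕ) : ℤ),
      (if (3 : ℤ) ∣ b then 0 else F b) := by
    refine Finset.dvd_sum fun b _ => ?_
    split_ifs with h3b
    · exact dvd_zero _
    rw [hF]
    by_cases hD : DN (9 * N) b = 0
    · simp only [hD, FL_zero]
      simp
    have h3D : ¬ 3 ∣ DN (9 * N) b := by
      rcases cases3 b hD with h | ⟨c, rfl, -⟩
      · exact h.2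
      · exact absurd (Dvd.intro c rfl) h3b
    have hpd := PD_of hP hN9 hD
    obtain ⟨a1, -⟩ := famA hpd (t := 51) (Or.inr (Or.inr (Or.inr rfl))) h3D
    obtain ⟨a2, -⟩ := famA hpd (t := 3) (Or.inr (Or.inr (Or.inl rfl))) h3D
    obtain ⟨a3, -⟩ := famA hpd (t := 17) (Or.inr (Or.inl rfl)) h3D
    obtain ⟨a4, -⟩ := famA hpd (t := 1) (Or.inl rfl) h3D
    apply half
    have := dvd_sub (dvd_sub (dvd_add a1 a2) a3) a4
    refine this.trans (dvd_of_eq ?_)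
    ring
  -- the inner products divisible by three
  have d2 : (2 : ℤ) ^ P.card ∣ ∑ c ∈ Ioo (0 : ℤ) ((9 * M : ℕ) : ℤ), (F (3 * c) - G c) := by
    refine Finset.dvd_sum fun c _ => ?_
    rw [hF, hG]
    simp only [DN_nine]
    by_cases hD : DN N c = 0
    · simp only [hD, mul_zero, FL_zero]
      simp
    have hpd := PD_of hP hN hD
    have a1 := famB hpd hP3 (t := 51) (Or.inr rfl)
    have a2 := famB hpd hP3 (t := 3) (Or.inl rfl)
    have a3 := famC hpd hP3 (t := 17) (Or.inr rfl) hγs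
    have a4 := famC hpd hP3 (t := 1) (Or.inl rfl) hγs'
    apply half
    have := dvd_sub (dvd_sub (dvd_add a1 a2) a3) a4
    refine this.trans (dvd_of_eq ?_)
    ring
  -- the inner product zero
  have d3 : (2 : ℤ) ^ (P.card + 1) ∣ F (3 * 0) - G 0 := by
    rw [hF, hG]
    simp only [DN_nine, DN_zero]
    have h3N : ¬ 3 ∣ N := by omega
    have a1 := FLa hP hP3 hA.n17 hN h3N (t := 51) (Or.inr rfl)
    have a2 := FLa hP hP3 hA.n17 hN h3N (t := 3) (Or.inl rfl)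
    have a3 := FLb hP hP3 hA.n17 hN h3N (t := 17) (Or.inr rfl) hγs
    have a4 := FLb hP hP3 hA.n17 hN h3N (t := 1) (Or.inl rfl) hγs'
    have := dvd_sub (dvd_sub (dvd_add a1 a2) a3) a4
    refine this.trans (dvd_of_eq ?_)
    ring
  obtain ⟨x, hx⟩ := d1
  obtain ⟨y, hy⟩ := d2
  obtain ⟨z, hz⟩ := d3
  rw [hx, hy, hz, if_pos (dvd_zero _)]
  exact ⟨3 * x + 3 * y + 3 * z, by rw [pow_succ, pow_succ]; ring⟩

end Pool.Agent.N218.P17
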